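import Pool.Agent.Lib.MP_b0a977_co.H62.Forest

/-!
# The layered forest with halvings
-/

set_option autoImplicit false

namespace Pool.Agent.Lib.MP_b0a977_co.H62

open Finset

theorem card_div (m D a : ℕ) (hD : 0 < D) : ((range m).filter fun c => c / D = a).card ≤ D := by
  have h : (range m).filter (fun c => c / D = a) ⊆ Ico (a * D) (a * D + D) := by
    intro c
    simp only [mem_filter, mem_range, mem_Ico]
    rintro ⟨-, rfl⟩
    exact ⟨Nat.div_mul_le_self c D, Nat.lt_div_mul_add hD⟩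
  refine (card_le_card h).trans ?_
  rw [Nat.card_Ico]
  omega

theorem card_mod_div (N M D a : ℕ) (hD : 0 < D) :
    ((range N).filter fun c => c % M / D = a).card ≤ D * (N / M + 1) := by
  have h : ((range N).filter fun c => c % M / D = a).card ≤
      ((Ico (a * D) (a * D + D)) ×ˢ range (N / M + 1)).card := by
    refine card_le_card_of_injOn (fun c => (c % M, c / M)) ?_ ?_
    · intro c
      simp only [coe_filter, mem_range, coe_product, Set.mem_prod, mem_coe, mem_Ico,
        Set.mem_ofPred_eq]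
      rintro ⟨hc, rfl⟩
      refine ⟨⟨Nat.div_mul_le_self _ D, Nat.lt_div_mul_add hD⟩, ?_⟩
      exact Nat.lt_succ_of_le (Nat.div_le_div_right hc.le)
    · intro c _ c' _ hcc
      simp only [Prod.mk.injEq] at hcc
      rw [← Nat.div_add_mod c M, ← Nat.div_add_mod c' M, hcc.1, hcc.2]
  refine h.trans ?_
  rw [card_product, card_range, Nat.card_Ico]
  exact le_of_eq (by congr 1; omega)

/-- The number of cells of level `h`. -/
def mm (g N L₁ : ℕ) (r : ℕ → ℕ) (h : ℕ) : ℕ :=
  if h = 0 then N else if h ≤ L₁ then g * 2 ^ r h else 1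

/-- The parents. -/
def pp (g J L₁ : ℕ) (r : ℕ → ℕ) (h c : ℕ) : ℕ :=
  if h = 0 then c % (g * 2 ^ J) / 2 ^ (J - r 1)
  else if h < L₁ then c / 2 ^ (r h - r (h + 1)) else 0

section cells

variable {g J N L₁ : ℕ} {r : ℕ → ℕ}

theorem r_anti (hr : ∀ h, r (h + 1) ≤ r h) {h k : ℕ} (hk : h ≤ k) : r k ≤ r h :=
  antitone_nat_of_succ_le hr hk

theorem anc_pos (hr : ∀ h, r (h + 1) ≤ r h) (k c : ℕ) (hk : 1 ≤ k) :
    ∀ i, k + i ≤ L₁ → anc (pp g J L₁ r) k c i = c / 2 ^ (r k - r (k + i)) := by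
  intro i
  induction i with
  | zero => intro _; simp [anc]
  | succ i ih =>
    intro hi
    rw [anc, ih (by omega), pp, if_neg (by omega), if_pos (by omega), Nat.div_div_eq_div_mul,
      ← pow_add]
    have h1 := r_anti hr (show k ≤ k + i by omega)
    have h2 := r_anti hr (show k + i ≤ k + (i + 1) by omega)
    congr 2
    rw [← Nat.add_assoc] at h2 ⊢
    omega

theorem anc_zero (hr : ∀ h, r (h + 1) ≤ r h) (hrJ : ∀ h, r h ≤ J) (c : ℕ) (h : ℕ) (h1 : 1 ≤ h)
    (hh : h ≤ L₁) : anc (pp g J L₁ r) 0 c h = c % (g * 2 ^ J) / 2 ^ (J - r h) := by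
  obtain ⟨i, rfl⟩ : ∃ i, h = i + 1 := ⟨h - 1, by omega⟩
  rw [← anc_succ', anc_pos hr _ _ (by omega) _ (by omega), pp, if_pos rfl,
    Nat.div_div_eq_div_mul, ← pow_add]
  have h1 := r_anti hr (show 1 ≤ i + 1 by omega)
  have h2 := hrJ 1
  congr 2
  rw [show 0 + 1 + i = i + 1 by ring]
  simp only [zero_add]
  omega

theorem cnt_le (hr : ∀ h, r (h + 1) ≤ r h) (hrJ : ∀ h, r h ≤ J) (h a : ℕ) (h1 : 1 ≤ h)
    (hh : h ≤ L₁) : cnt (mm g N L₁ r) (pp g J L₁ r) h a ≤
      2 ^ (J - r h) * (N / (g * 2 ^ J) + 1 + h) := by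
  unfold cnt
  rw [sum_range_succ']
  have e0 : ((range (mm g N L₁ r 0)).filter
      fun c => anc (pp g J L₁ r) 0 c (h - 0) = a).card ≤ 2 ^ (J - r h) * (N / (g * 2 ^ J) + 1) := by
    have : (range (mm g N L₁ r 0)).filter (fun c => anc (pp g J L₁ r) 0 c (h - 0) = a) =
        (range N).filter fun c => c % (g * 2 ^ J) / 2 ^ (J - r h) = a := by
      rw [mm, if_pos rfl, Nat.sub_zero]
      refine filter_congr fun c _ => ?_
      rw [anc_zero hr hrJ c h h1 hh]
    rw [this]
    exact card_mod_div N _ _ a (by positivity)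
  have e1 : ∑ k ∈ range h, ((range (mm g N L₁ r (k + 1))).filter
      fun c => anc (pp g J L₁ r) (k + 1) c (h - (k + 1)) = a).card ≤ h * 2 ^ (J - r h) := by
    refine (sum_le_sum (g := fun _ => 2 ^ (J - r h)) fun k hk => ?_).trans ?_
    · rw [mem_range] at hk
      have : (range (mm g N L₁ r (k + 1))).filter
          (fun c => anc (pp g J L₁ r) (k + 1) c (h - (k + 1)) = a) =
          (range (mm g N L₁ r (k + 1))).filter fun c => c / 2 ^ (r (k + 1) - r h) = a := by
        refine filter_congr fun c _ => ?_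
        rw [anc_pos hr (k + 1) c (by omega) (h - (k + 1)) (by omega),
          show k + 1 + (h - (k + 1)) = h by omega]
      rw [this]
      refine (card_div _ _ _ (by positivity)).trans ?_
      refine Nat.pow_le_pow_right (by norm_num) ?_
      have := hrJ (k + 1)
      omega
    · rw [sum_const, card_range, smul_eq_mul]
  calc _ ≤ h * 2 ^ (J - r h) + 2 ^ (J - r h) * (N / (g * 2 ^ J) + 1) := Nat.add_le_add e1 e0
    _ = 2 ^ (J - r h) * (N / (g * 2 ^ J) + 1 + h) := by ring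

theorem cnt_zero (a : ℕ) (ha : a < N) : cnt (mm g N L₁ r) (pp g J L₁ r) 0 a = 1 := by
  unfold cnt
  rw [zero_add, sum_range_one]
  have : (range (mm g N L₁ r 0)).filter (fun c => anc (pp g J L₁ r) 0 c (0 - 0) = a) = {a} := by
    ext c
    rw [mem_filter, mem_range, mem_singleton, mm, if_pos rfl, Nat.sub_zero, anc]
    constructor
    · exact fun h => h.2
    · rintro rfl
      exact ⟨ha, rfl⟩
  rw [this, card_singleton]

theorem pp_lt (hr : ∀ h, r (h + 1) ≤ r h) (hrJ : ∀ h, r h ≤ J) (hg : 1 ≤ g) (hL : 1 ≤ L₁) (L : ℕ) :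
    ∀ h < L, ∀ c < mm g N L₁ r h, pp g J L₁ r h c < mm g N L₁ r (h + 1) := by
  intro h hh c hc
  rw [mm, if_neg (by omega)]
  rcases Nat.eq_zero_or_pos h with h0 | h0
  · subst h0
    rw [if_pos (by omega), pp, if_pos rfl, Nat.div_lt_iff_lt_mul (by positivity), zero_add,
      mul_assoc, ← pow_add, Nat.add_sub_cancel' (hrJ 1)]
    exact Nat.mod_lt _ (by positivity)
  · by_cases h1 : h + 1 ≤ L₁
    · rw [if_pos h1, pp, if_neg (by omega), if_pos (by omega),
        Nat.div_lt_iff_lt_mul (by positivity), mul_assoc, ← pow_add, Nat.add_sub_cancel' (hr h)]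
      rw [mm, if_neg (by omega), if_pos (by omega)] at hc
      exact hc
    · rw [if_neg h1, pp, if_neg (by omega), if_neg (by omega)]
      norm_num

end cells

theorem cells (n g J L₁ e : ℕ) (r : ℕ → ℕ) (hr : ∀ h, r (h + 1) ≤ r h) (hrJ : ∀ h, r h ≤ J)
    (hg : 2 ≤ g) (hL : 1 ≤ L₁) (he : e ≤ 1) (hN : g * 2 ^ J * (L₁ + 1) + e ≤ n) :
    ∃ G : SimpleGraph (Fin n), G.Connected ∧ G.diam = 2 * L₁ + 1 + e ∧
      ∑ x, ∑ y, (((2 * L₁ + 1 + e : ℕ) : ℝ) - G.dist x y) ≤
        2 * n * (g * ∑ h ∈ range L₁, ((h + 1 : ℕ) : ℝ) * 2 ^ r (h + 1) + (L₁ + 1)) +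
        2 * (n + (n + g * 2 ^ J * (L₁ + 1)) ^ 2 / g * ∑ h ∈ range L₁, 1 / (2 : ℝ) ^ r (h + 1)) := by
  have hs : ∑ h ∈ range L₁, g * 2 ^ r (h + 1) ≤ g * 2 ^ J * L₁ := by
    calc ∑ h ∈ range L₁, g * 2 ^ r (h + 1) ≤ ∑ h ∈ range L₁, g * 2 ^ J :=
          sum_le_sum fun h _ => Nat.mul_le_mul_left g (Nat.pow_le_pow_right (by norm_num) (hrJ _))
      _ = g * 2 ^ J * L₁ := by rw [sum_const, card_range, smul_eq_mul, mul_comm]
  set S := ∑ h ∈ range L₁, g * 2 ^ r (h + 1) with hS
  have hM : 0 < g * 2 ^ J := by positivity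
  have hN' : g * 2 ^ J * L₁ + g * 2 ^ J + e ≤ n := by
    have : g * 2 ^ J * (L₁ + 1) = g * 2 ^ J * L₁ + g * 2 ^ J := by ring
    omega
  obtain ⟨N, hNdef⟩ : ∃ N, N = n - S - e := ⟨_, rfl⟩
  have hNM : g * 2 ^ J ≤ N := by omega
  have hNn : N ≤ n := by omega
  have h2M : 2 * 2 ^ J ≤ g * 2 ^ J := Nat.mul_le_mul_right _ hg
  -- the numbers of cells
  have hm1 : ∀ h ∈ range L₁, mm g N L₁ r (h + 1) = g * 2 ^ r (h + 1) := by
    intro h hh
    rw [mem_range] at hh
    rw [mm, if_neg (by omega), if_pos (by omega)]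
  have hm0 : mm g N L₁ r 0 = N := by rw [mm, if_pos rfl]
  have hsum : n = ∑ h ∈ range (L₁ + e + 1), mm g N L₁ r h := by
    rw [sum_range_succ', hm0]
    have : ∑ h ∈ range (L₁ + e), mm g N L₁ r (h + 1) = S + e := by
      rcases Nat.le_one_iff_eq_zero_or_eq_one.1 he with he | he
      · subst he
        rw [add_zero, add_zero, hS]
        exact sum_congr rfl hm1
      · subst he
        rw [sum_range_succ, hS]
        congr 1
        · exact sum_congr rfl hm1
        · rw [mm, if_neg (by omega), if_neg (by omega)]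
    rw [this]
    omega
  obtain ⟨G, hG1, hG2, hG3⟩ := forest n (L₁ + e) (L₁ + 1) (2 * L₁ + 1 + e) (mm g N L₁ r)
    (pp g J L₁ r) (pp_lt hr hrJ (by omega) hL _) hsum (by
      rcases Nat.le_one_iff_eq_zero_or_eq_one.1 he with he | he
      · left; omega
      · right
        refine ⟨by omega, by omega, ?_⟩
        rw [he, mm, if_neg (by omega), if_neg (by omega)]) ⟨0, g * 2 ^ J - 1, by omega, by omega, by
      intro h hh
      rcases Nat.eq_zero_or_pos h with h0 | h0
      · subst h0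
        simp only [anc]
        have : 0 < 2 ^ J := by positivity
        omega
      · rw [anc_zero hr hrJ _ h h0 (by omega), anc_zero hr hrJ _ h h0 (by omega), Nat.zero_mod,
          Nat.zero_div, Nat.mod_eq_of_lt (by omega)]
        apply Ne.symm
        apply Nat.pos_iff_ne_zero.1
        apply Nat.div_pos _ (by positivity)
        have h3 : 2 ^ (J - r h) ≤ 2 ^ J := Nat.pow_le_pow_right (by norm_num) (by omega)
        have : 0 < 2 ^ J := by positivity
        omega⟩
  refine ⟨G, hG1, hG2, hG3.trans ?_⟩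
  have hg0 : (0 : ℝ) < g := by
    have : 0 < g := by omega
    exact_mod_cast this
  -- the levels
  have hlev : ∑ h ∈ range (L₁ + e + 1), (h : ℝ) * mm g N L₁ r h ≤
      g * ∑ h ∈ range L₁, ((h + 1 : ℕ) : ℝ) * 2 ^ r (h + 1) + (L₁ + 1) := by
    rw [sum_range_succ', Nat.cast_zero, zero_mul, add_zero]
    have h1 : ∑ h ∈ range L₁, ((h + 1 : ℕ) : ℝ) * mm g N L₁ r (h + 1) =
        g * ∑ h ∈ range L₁, ((h + 1 : ℕ) : ℝ) * 2 ^ r (h + 1) := by
      rw [mul_sum]
      refine sum_congr rfl fun h hh => ?_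
      rw [hm1 h hh]
      push_cast
      ring
    rcases Nat.le_one_iff_eq_zero_or_eq_one.1 he with he | he
    · subst he
      rw [add_zero, h1]
      have : (0 : ℝ) ≤ (L₁ : ℝ) + 1 := by positivity
      linarith
    · subst he
      rw [sum_range_succ, h1, mm, if_neg (by omega), if_neg (by omega)]
      push_cast
      linarith
  -- the cells
  have hcell : ∑ h ∈ range (L₁ + 1), ∑ a ∈ range (mm g N L₁ r h),
      (cnt (mm g N L₁ r) (pp g J L₁ r) h a : ℝ) ^ 2 ≤
      n + (n + g * 2 ^ J * (L₁ + 1)) ^ 2 / g * ∑ h ∈ range L₁, 1 / (2 : ℝ) ^ r (h + 1) := by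
    rw [sum_range_succ', add_comm]
    refine add_le_add ?_ ?_
    · have : ∑ a ∈ range (mm g N L₁ r 0), (cnt (mm g N L₁ r) (pp g J L₁ r) 0 a : ℝ) ^ 2 =
          (N : ℝ) := by
        rw [hm0]
        rw [sum_congr rfl (g := fun _ => (1 : ℝ))]
        · simp
        · intro a ha
          rw [cnt_zero a (mem_range.1 ha)]
          norm_num
      rw [this]
      exact_mod_cast hNn
    · rw [mul_sum]
      refine sum_le_sum fun h hh => ?_
      have hh' := mem_range.1 hh
      have h1 : ∀ a : ℕ, (cnt (mm g N L₁ r) (pp g J L₁ r) (h + 1) a : ℝ) ^ 2 ≤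
          (2 ^ (J - r (h + 1)) / (g * 2 ^ J) * (n + g * 2 ^ J * (L₁ + 1))) ^ 2 := by
        intro a
        refine pow_le_pow_left₀ (Nat.cast_nonneg _) ?_ 2
        have h2 := cnt_le (g := g) (N := N) (L₁ := L₁) hr hrJ (h + 1) a (by omega) (by omega)
        have h3 : (cnt (mm g N L₁ r) (pp g J L₁ r) (h + 1) a : ℝ) ≤
            2 ^ (J - r (h + 1)) * (((N / (g * 2 ^ J) : ℕ) : ℝ) + 1 + (h + 1)) := by
          exact_mod_cast h2
        refine h3.trans ?_
        have h4 : (g * 2 ^ J : ℝ) * ((N / (g * 2 ^ J) : ℕ) : ℝ) ≤ n := by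
          have : g * 2 ^ J * (N / (g * 2 ^ J)) ≤ n := (Nat.mul_div_le N _).trans hNn
          exact_mod_cast this
        have h5 : ((h : ℝ) + 1) ≤ L₁ := by exact_mod_cast hh'
        rw [div_mul_eq_mul_div, le_div_iff₀ (by positivity), mul_assoc]
        refine mul_le_mul_of_nonneg_left ?_ (by positivity)
        have h6 : (g * 2 ^ J : ℝ) * ((h : ℝ) + 1) ≤ (g * 2 ^ J : ℝ) * L₁ :=
          mul_le_mul_of_nonneg_left h5 (by positivity)
        nlinarith
      refine (sum_le_sum fun a _ => h1 a).trans ?_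
      rw [sum_const, card_range, nsmul_eq_mul, hm1 h hh]
      apply le_of_eq
      have h7 : (2 : ℝ) ^ (J - r (h + 1)) = 2 ^ J / 2 ^ r (h + 1) := by
        rw [eq_div_iff (by positivity), ← pow_add, Nat.sub_add_cancel (hrJ _)]
      rw [h7]
      push_cast
      field_simp
  have hn0 : (0 : ℝ) ≤ 2 * n := by positivity
  have := mul_le_mul_of_nonneg_left hlev hn0
  linarith

end Pool.Agent.Lib.MP_b0a977_co.H62
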