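import Pool.Agent.Lib.MP_b0a977_co.H62.ForestD
import Pool.Agent.Lib.MP_b0a977_co.Sharp.IfaceD

/-!
# The layered forest of a chain of partitions
-/

set_option autoImplicit false

namespace Pool.Agent.Lib.MP_b0a977_co.H62

open Finset Pool.Agent.Lib.MP_b0a977_co.Sharp

/-- The number of cells of level `h`. -/
def mD (N₀ k : ℕ) (μ : ℕ → ℕ) (h : ℕ) : ℕ :=
  if h = 0 then N₀ else if h ≤ k then μ h else 1

/-- The parents. -/
def pD (M k : ℕ) (B rep : ℕ → ℕ → ℕ) (h c : ℕ) : ℕ :=
  if h = 0 then B 1 (c % M) else if h < k then B (h + 1) (rep h c) else 0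

/-- A chain of partitions of `{0, …, M-1}` with labels and representatives. -/
structure Chain (k M : ℕ) (μ : ℕ → ℕ) (B rep : ℕ → ℕ → ℕ) : Prop where
  lt : ∀ h, 1 ≤ h → h ≤ k → ∀ y < M, B h y < μ h
  rep_lt : ∀ h, 1 ≤ h → h ≤ k → ∀ c < μ h, rep h c < M
  B_rep : ∀ h, 1 ≤ h → h ≤ k → ∀ c < μ h, B h (rep h c) = c
  nest : ∀ h, 1 ≤ h → h < k → ∀ y < M, ∀ y' < M, B h y = B h y' → B (h + 1) y = B (h + 1) y'

section chain

variable {k M N₀ : ℕ} {μ : ℕ → ℕ} {B rep : ℕ → ℕ → ℕ}

theorem Chain.step (C : Chain k M μ B rep) (h : ℕ) (h1 : 1 ≤ h) (hk : h < k) (y : ℕ) (hy : y < M) :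
    B (h + 1) (rep h (B h y)) = B (h + 1) y := by
  have hb := C.lt h h1 hk.le y hy
  exact C.nest h h1 hk _ (C.rep_lt h h1 hk.le _ hb) _ hy (C.B_rep h h1 hk.le _ hb)

theorem Chain.anc_pos (C : Chain k M μ B rep) (q c : ℕ) (hq : 1 ≤ q) (hqk : q ≤ k) (hc : c < μ q) :
    ∀ i, q + i ≤ k → anc (pD M k B rep) q c i = B (q + i) (rep q c) := by
  intro i
  induction i with
  | zero => intro _; rw [anc, add_zero, C.B_rep q hq hqk c hc]
  | succ i ih =>
    intro hi
    rw [anc, ih (by omega), pD, if_neg (by omega), if_pos (by omega),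
      C.step (q + i) (by omega) (by omega) _ (C.rep_lt q hq hqk c hc)]
    rfl

theorem Chain.anc_zero (C : Chain k M μ B rep) (hM : 0 < M) (c : ℕ) :
    ∀ h, 1 ≤ h → h ≤ k → anc (pD M k B rep) 0 c h = B h (c % M) := by
  intro h h1
  induction h, h1 using Nat.le_induction with
  | base => intro _; rw [anc, anc, pD, if_pos rfl]
  | succ h h1 ih =>
    intro hk
    rw [anc, ih (by omega), zero_add, pD, if_neg (by omega), if_pos (by omega),
      C.step h h1 (by omega) _ (Nat.mod_lt _ hM)]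

theorem card_mod_le (N M : ℕ) (f : ℕ → ℕ) (a : ℕ) (hM : 0 < M) :
    ((range N).filter fun c => f (c % M) = a).card ≤
      ((range M).filter fun y => f y = a).card * (N / M + 1) := by
  have h : ((range N).filter fun c => f (c % M) = a).card ≤
      (((range M).filter fun y => f y = a) ×ˢ range (N / M + 1)).card := by
    refine card_le_card_of_injOn (fun c => (c % M, c / M)) ?_ ?_
    · intro c
      simp only [coe_filter, mem_range, coe_product, Set.mem_prod, mem_coe,
        Set.mem_ofPred_eq]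
      rintro ⟨hc, h⟩
      exact ⟨⟨Nat.mod_lt _ hM, h⟩, Nat.lt_succ_of_le (Nat.div_le_div_right hc.le)⟩
    · intro c _ c' _ hcc
      simp only [Prod.mk.injEq] at hcc
      rw [← Nat.div_add_mod c M, ← Nat.div_add_mod c' M, hcc.1, hcc.2]
  refine h.trans ?_
  rw [card_product, card_range]

theorem Chain.cnt_le (C : Chain k M μ B rep) (hM : 0 < M) (h a : ℕ) (h1 : 1 ≤ h) (hk : h ≤ k) :
    cnt (mD N₀ k μ) (pD M k B rep) h a ≤
      ((range M).filter fun y => B h y = a).card * (N₀ / M + 1 + h) := by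
  unfold cnt
  rw [sum_range_succ']
  have e0 : ((range (mD N₀ k μ 0)).filter
      fun c => anc (pD M k B rep) 0 c (h - 0) = a).card ≤
        ((range M).filter fun y => B h y = a).card * (N₀ / M + 1) := by
    have : (range (mD N₀ k μ 0)).filter (fun c => anc (pD M k B rep) 0 c (h - 0) = a) =
        (range N₀).filter fun c => B h (c % M) = a := by
      rw [mD, if_pos rfl, Nat.sub_zero]
      refine filter_congr fun c _ => ?_
      rw [C.anc_zero hM c h h1 hk]
    rw [this]
    exact card_mod_le N₀ M (B h) a hM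
  have e1 : ∑ q ∈ range h, ((range (mD N₀ k μ (q + 1))).filter
      fun c => anc (pD M k B rep) (q + 1) c (h - (q + 1)) = a).card ≤
        h * ((range M).filter fun y => B h y = a).card := by
    refine (sum_le_sum (g := fun _ => ((range M).filter fun y => B h y = a).card)
      fun q hq => ?_).trans ?_
    · rw [mem_range] at hq
      refine card_le_card_of_injOn (fun c => rep (q + 1) c) ?_ ?_
      · intro c
        simp only [coe_filter, mem_range, Set.mem_ofPred_eq, mD]
        rw [if_neg (by omega), if_pos (by omega)]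
        rintro ⟨hc, h2⟩
        refine ⟨C.rep_lt _ (by omega) (by omega) c hc, ?_⟩
        rw [C.anc_pos (q + 1) c (by omega) (by omega) hc _ (by omega),
          show q + 1 + (h - (q + 1)) = h by omega] at h2
        exact h2
      · intro c hc c' hc' hcc
        simp only [coe_filter, mem_range, Set.mem_ofPred_eq, mD] at hc hc'
        rw [if_neg (by omega), if_pos (by omega)] at hc hc'
        have hcc' : rep (q + 1) c = rep (q + 1) c' := hcc
        rw [← C.B_rep (q + 1) (by omega) (by omega) c hc.1, hcc',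
          C.B_rep (q + 1) (by omega) (by omega) c' hc'.1]
    · rw [sum_const, card_range, smul_eq_mul]
  calc _ ≤ h * ((range M).filter fun y => B h y = a).card +
        ((range M).filter fun y => B h y = a).card * (N₀ / M + 1) := Nat.add_le_add e1 e0
    _ = ((range M).filter fun y => B h y = a).card * (N₀ / M + 1 + h) := by ring

theorem cntD_zero (a : ℕ) (ha : a < N₀) : cnt (mD N₀ k μ) (pD M k B rep) 0 a = 1 := by
  unfold cnt
  rw [zero_add, sum_range_one]
  have : (range (mD N₀ k μ 0)).filter (fun c => anc (pD M k B rep) 0 c (0 - 0) = a) = {a} := by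
    ext c
    rw [mem_filter, mem_range, mem_singleton, mD, if_pos rfl, Nat.sub_zero, anc]
    constructor
    · exact fun h => h.2
    · rintro rfl
      exact ⟨ha, rfl⟩
  rw [this, card_singleton]

theorem Chain.pD_lt (C : Chain k M μ B rep) (hM : 0 < M) (hk : 1 ≤ k) (L : ℕ) :
    ∀ h < L, ∀ c < mD N₀ k μ h, pD M k B rep h c < mD N₀ k μ (h + 1) := by
  intro h hh c hc
  rw [mD, if_neg (by omega)]
  rcases Nat.eq_zero_or_pos h with h0 | h0
  · subst h0
    rw [if_pos (by omega), pD, if_pos rfl]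
    exact C.lt 1 le_rfl hk _ (Nat.mod_lt _ hM)
  · by_cases h1 : h + 1 ≤ k
    · rw [if_pos h1, pD, if_neg (by omega), if_pos (by omega)]
      rw [mD, if_neg (by omega), if_pos (by omega)] at hc
      exact C.lt _ (by omega) h1 _ (C.rep_lt h h0 (by omega) c hc)
    · rw [if_neg h1, pD, if_neg (by omega), if_neg (by omega)]
      norm_num

end chain

/-- Sums over the levels. -/
theorem sum_two (k e : ℕ) (hk : 1 ≤ k) (he : e ≤ 1) (F : ℕ → ℝ) :
    ∑ h ∈ range (k + e), F h + ∑ h ∈ range (k + 1), F h =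
      2 * F 0 + ∑ h ∈ Icc 1 k, (al (2 * k + 1 + e) h : ℝ) * F h := by
  have hI : ∀ (j : ℕ) (f : ℕ → ℝ), ∑ h ∈ Icc 1 j, f h = ∑ h ∈ range j, f (h + 1) := by
    intro j f
    rw [range_eq_Ico, sum_Ico_add' f 0 j 1, zero_add]
    rfl
  rw [hI]
  rcases Nat.le_one_iff_eq_zero_or_eq_one.1 he with he | he
  · subst he
    obtain ⟨j, rfl⟩ : ∃ j, k = j + 1 := ⟨k - 1, by omega⟩
    rw [add_zero, sum_range_succ' F (j + 1), sum_range_succ' F j, sum_range_succ (fun h => F (h + 1)),
      sum_range_succ (fun h => (al (2 * (j + 1) + 1 + 0) (h + 1) : ℝ) * F (h + 1))]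
    have h1 : ∑ h ∈ range j, (al (2 * (j + 1) + 1 + 0) (h + 1) : ℝ) * F (h + 1) =
        2 * ∑ h ∈ range j, F (h + 1) := by
      rw [mul_sum]
      refine sum_congr rfl fun h hh => ?_
      rw [mem_range] at hh
      rw [al, if_neg (by omega)]
      norm_num
    rw [h1, al, if_pos (by omega)]
    push_cast
    ring
  · subst he
    rw [sum_range_succ' F k]
    have h1 : ∑ h ∈ range k, (al (2 * k + 1 + 1) (h + 1) : ℝ) * F (h + 1) =
        2 * ∑ h ∈ range k, F (h + 1) := by
      rw [mul_sum]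
      refine sum_congr rfl fun h hh => ?_
      rw [mem_range] at hh
      rw [al, if_neg (by omega)]
      norm_num
    rw [h1]
    ring

/-- The graph of a chain of partitions. -/
theorem chain_graph (n k e M : ℕ) (μ : ℕ → ℕ) (B rep : ℕ → ℕ → ℕ) (hk : 1 ≤ k) (he : e ≤ 1)
    (C : Chain k M μ B rep)
    (hfar : ∃ y y', y < M ∧ y' < M ∧ ∀ h, 1 ≤ h → h ≤ k → B h y ≠ B h y')
    (hn : M + ∑ h ∈ Icc 1 k, μ h + e ≤ n) :
    ∃ G : SimpleGraph (Fin n), G.Connected ∧ G.diam = 2 * k + 1 + e ∧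
      ∑ x, ∑ y, (((2 * k + 1 + e : ℕ) : ℝ) - G.dist x y) ≤
        2 * n * (∑ h ∈ Icc 1 k, (h : ℝ) * μ h + (k + 1)) + (2 * n +
          ((n : ℝ) / M + 1 + k) ^ 2 * ∑ h ∈ Icc 1 k, (al (2 * k + 1 + e) h : ℝ) *
            ∑ a ∈ range (μ h), (((range M).filter fun y => B h y = a).card : ℝ) ^ 2) := by
  obtain ⟨y, y', hy, hy', hfar⟩ := hfar
  have hM : 0 < M := by omega
  have hIN : ∀ (j : ℕ) (f : ℕ → ℕ), ∑ h ∈ Icc 1 j, f h = ∑ h ∈ range j, f (h + 1) := by
    intro j f
    rw [range_eq_Ico, sum_Ico_add' f 0 j 1, zero_add]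
    rfl
  have hIR : ∀ (j : ℕ) (f : ℕ → ℝ), ∑ h ∈ Icc 1 j, f h = ∑ h ∈ range j, f (h + 1) := by
    intro j f
    rw [range_eq_Ico, sum_Ico_add' f 0 j 1, zero_add]
    rfl
  set S := ∑ h ∈ Icc 1 k, μ h with hS
  obtain ⟨N₀, hN₀⟩ : ∃ N₀, N₀ = n - S - e := ⟨_, rfl⟩
  have hN₀M : M ≤ N₀ := by omega
  have hN₀n : N₀ ≤ n := by omega
  have hm0 : mD N₀ k μ 0 = N₀ := by rw [mD, if_pos rfl]
  have hm1 : ∀ h ∈ range k, mD N₀ k μ (h + 1) = μ (h + 1) := by
    intro h hh
    rw [mem_range] at hh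
    rw [mD, if_neg (by omega), if_pos (by omega)]
  have hsum : n = ∑ h ∈ range (k + e + 1), mD N₀ k μ h := by
    rw [sum_range_succ', hm0]
    have : ∑ h ∈ range (k + e), mD N₀ k μ (h + 1) = S + e := by
      rcases Nat.le_one_iff_eq_zero_or_eq_one.1 he with he | he
      · subst he
        rw [add_zero, add_zero, hS, hIN]
        exact sum_congr rfl hm1
      · subst he
        rw [sum_range_succ, hS, hIN]
        congr 1
        · exact sum_congr rfl hm1
        · rw [mD, if_neg (by omega), if_neg (by omega)]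
    rw [this]
    omega
  obtain ⟨G, hG1, hG2, hG3⟩ := forest2 n (k + e) (k + e) (k + 1) (2 * k + 1 + e) (mD N₀ k μ)
    (pD M k B rep) (C.pD_lt hM hk _) hsum (by
      rcases Nat.le_one_iff_eq_zero_or_eq_one.1 he with he | he
      · left; omega
      · right
        refine ⟨by omega, by omega, by omega, ?_⟩
        rw [he, mD, if_neg (by omega), if_neg (by omega)]) ⟨y, y', by omega, by omega, by
      intro h hh
      rcases Nat.eq_zero_or_pos h with h0 | h0
      · subst h0
        simp only [anc]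
        intro h
        subst h
        exact hfar 1 le_rfl hk rfl
      · rw [C.anc_zero hM _ h h0 (by omega), C.anc_zero hM _ h h0 (by omega),
          Nat.mod_eq_of_lt hy, Nat.mod_eq_of_lt hy']
        exact hfar h h0 (by omega)⟩
  refine ⟨G, hG1, hG2, hG3.trans ?_⟩
  have hM0 : (0 : ℝ) < M := by exact_mod_cast hM
  -- the levels
  have hlev : ∑ h ∈ range (k + e + 1), (h : ℝ) * mD N₀ k μ h ≤
      ∑ h ∈ Icc 1 k, (h : ℝ) * μ h + (k + 1) := by
    rw [sum_range_succ', Nat.cast_zero, zero_mul, add_zero, hIR]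
    have h1 : ∑ h ∈ range k, ((h + 1 : ℕ) : ℝ) * mD N₀ k μ (h + 1) =
        ∑ h ∈ range k, ((h + 1 : ℕ) : ℝ) * μ (h + 1) := by
      refine sum_congr rfl fun h hh => ?_
      rw [hm1 h hh]
    rcases Nat.le_one_iff_eq_zero_or_eq_one.1 he with he | he
    · subst he
      rw [add_zero, h1]
      have : (0 : ℝ) ≤ (k : ℝ) + 1 := by positivity
      linarith
    · subst he
      rw [sum_range_succ, h1, mD, if_neg (by omega), if_neg (by omega)]
      push_cast
      linarith
  rw [sum_two k e hk he]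
  have hF0 : ∑ a ∈ range (mD N₀ k μ 0), (cnt (mD N₀ k μ) (pD M k B rep) 0 a : ℝ) ^ 2 =
      (N₀ : ℝ) := by
    rw [hm0]
    rw [sum_congr rfl (g := fun _ => (1 : ℝ))]
    · simp
    · intro a ha
      rw [cntD_zero a (mem_range.1 ha)]
      norm_num
  have hcell : ∑ h ∈ Icc 1 k, (al (2 * k + 1 + e) h : ℝ) *
      ∑ a ∈ range (mD N₀ k μ h), (cnt (mD N₀ k μ) (pD M k B rep) h a : ℝ) ^ 2 ≤
      ((n : ℝ) / M + 1 + k) ^ 2 * ∑ h ∈ Icc 1 k, (al (2 * k + 1 + e) h : ℝ) *
            ∑ a ∈ range (μ h), (((range M).filter fun y => B h y = a).card : ℝ) ^ 2 := by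
    rw [mul_sum]
    refine sum_le_sum fun h hh => ?_
    rw [mem_Icc] at hh
    have hmh : mD N₀ k μ h = μ h := by rw [mD, if_neg (by omega), if_pos hh.2]
    rw [hmh, mul_left_comm]
    refine mul_le_mul_of_nonneg_left ?_ (Nat.cast_nonneg _)
    rw [mul_sum]
    refine sum_le_sum fun a _ => ?_
    rw [← mul_pow]
    refine pow_le_pow_left₀ (Nat.cast_nonneg _) ?_ 2
    have h2 := C.cnt_le (N₀ := N₀) hM h a hh.1 hh.2
    have h3 : (cnt (mD N₀ k μ) (pD M k B rep) h a : ℝ) ≤
        (((range M).filter fun y => B h y = a).card : ℝ) * (((N₀ / M : ℕ) : ℝ) + 1 + h) := by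
      exact_mod_cast h2
    refine h3.trans ?_
    rw [mul_comm]
    refine mul_le_mul_of_nonneg_right ?_ (Nat.cast_nonneg _)
    have h4 : ((N₀ / M : ℕ) : ℝ) ≤ (n : ℝ) / M := by
      refine Nat.cast_div_le.trans ?_
      have : (N₀ : ℝ) ≤ n := by exact_mod_cast hN₀n
      gcongr
    have h5 : (h : ℝ) ≤ k := by exact_mod_cast hh.2
    linarith
  have hN₀r : (N₀ : ℝ) ≤ n := by exact_mod_cast hN₀n
  have hn0 : (0 : ℝ) ≤ 2 * n := by positivity
  have := mul_le_mul_of_nonneg_left hlev hn0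
  rw [hF0]
  linarith

/-! ### Copies of a chain of partitions of `Fin N` -/

/-- Canonical labels of the classes of a function. -/
theorem labels (N : ℕ) (f : Fin N → ℕ) : ∃ b s : ℕ → ℕ,
    (∀ y < N, b y < (univ.image f).card) ∧
    (∀ t < (univ.image f).card, s t < N ∧ b (s t) = t) ∧
    ∀ y y' : Fin N, b y = b y' ↔ f y = f y' := by
  classical
  let E := (univ.image f).equivFin
  have hmem : ∀ y : Fin N, f y ∈ univ.image f := fun y => mem_image_of_mem f (mem_univ y)
  let b : ℕ → ℕ := fun y => if hy : y < N then E ⟨f ⟨y, hy⟩, hmem ⟨y, hy⟩⟩ else 0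
  have hs : ∀ t : ℕ, ∃ y : ℕ, t < (univ.image f).card → y < N ∧ b y = t := by
    intro t
    by_cases ht : t < (univ.image f).card
    · obtain ⟨y, -, hy⟩ := mem_image.1 (E.symm ⟨t, ht⟩).2
      refine ⟨y, fun _ => ⟨y.2, ?_⟩⟩
      have h1 : b y = E ⟨f y, hmem y⟩ := dif_pos y.2
      rw [h1]
      have h2 : (⟨f y, hmem y⟩ : {x // x ∈ univ.image f}) = E.symm ⟨t, ht⟩ := Subtype.ext hy
      rw [h2, E.apply_symm_apply]
    · exact ⟨0, fun h => absurd h ht⟩
  choose s hs using hs
  refine ⟨b, s, ?_, hs, ?_⟩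
  · intro y hy
    have h1 : b y = E ⟨f ⟨y, hy⟩, hmem ⟨y, hy⟩⟩ := dif_pos hy
    rw [h1]
    exact (E _).2
  · intro y y'
    have h1 : b y = E ⟨f y, hmem y⟩ := dif_pos y.2
    have h2 : b y' = E ⟨f y', hmem y'⟩ := dif_pos y'.2
    rw [h1, h2]
    constructor
    · intro h
      have h3 := E.injective (Fin.ext h)
      exact congrArg Subtype.val h3
    · intro h
      have h3 : (⟨f y, hmem y⟩ : {x // x ∈ univ.image f}) = ⟨f y', hmem y'⟩ := Subtype.ext h
      rw [h3]

theorem div_lt_copies {N g y : ℕ} (hy : y < g * N) : y / N < g :=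
  Nat.div_lt_of_lt_mul (by rwa [Nat.mul_comm] at hy)

theorem copy_inj {c q q' r r' : ℕ} (hr : r < c) (hr' : r' < c) (h : q * c + r = q' * c + r') :
    q = q' ∧ r = r' := by
  have hc : 0 < c := by omega
  have h1 : (q * c + r) / c = q := by
    rw [Nat.add_comm, Nat.add_mul_div_right _ _ hc, Nat.div_eq_of_lt hr, Nat.zero_add]
  have h2 : (q' * c + r') / c = q' := by
    rw [Nat.add_comm, Nat.add_mul_div_right _ _ hc, Nat.div_eq_of_lt hr', Nat.zero_add]
  have h3 : q = q' := by rw [← h1, ← h2, h]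
  refine ⟨h3, ?_⟩
  subst h3
  omega

theorem copy_lt {c g q r : ℕ} (hq : q < g) (hr : r < c) : q * c + r < g * c := by
  have h1 : (q + 1) * c ≤ g * c := Nat.mul_le_mul_right c hq
  have h2 : (q + 1) * c = q * c + c := by ring
  omega

theorem copies (k N g : ℕ) (a : ℕ → Fin N → ℕ) (hN : 0 < N) (hg : 2 ≤ g)
    (ha : ∀ i, 1 ≤ i → i < k → ∀ x y, a i x = a i y → a (i + 1) x = a (i + 1) y) :
    ∃ B rep : ℕ → ℕ → ℕ, Chain k (g * N) (fun h => g * (univ.image (a h)).card) B rep ∧
      (∃ y y', y < g * N ∧ y' < g * N ∧ ∀ h, 1 ≤ h → h ≤ k → B h y ≠ B h y') ∧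
      ∀ h, ∑ t ∈ range (g * (univ.image (a h)).card),
        ((range (g * N)).filter fun y => B h y = t).card ^ 2 ≤
          g * (univ.filter (fun p : Fin N × Fin N => a h p.1 = a h p.2)).card := by
  classical
  choose b s hb hs hbb using fun h => labels N (a h)
  have hmod : ∀ y : ℕ, y % N < N := fun y => Nat.mod_lt y hN
  set c : ℕ → ℕ := fun h => (univ.image (a h)).card with hc
  have hc0 : ∀ h, 0 < c h := by
    intro h
    have := hb h 0 hN
    exact lt_of_le_of_lt (Nat.zero_le _) this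
  have hbb' : ∀ h, ∀ y < N, ∀ y' < N, ∀ hy : y < N, ∀ hy' : y' < N,
      (b h y = b h y' ↔ a h ⟨y, hy⟩ = a h ⟨y', hy'⟩) := by
    intro h y _ y' _ hy hy'
    exact hbb h ⟨y, hy⟩ ⟨y', hy'⟩
  refine ⟨fun h y => y / N * c h + b h (y % N), fun h t => t / c h * N + s h (t % c h),
    ⟨?_, ?_, ?_, ?_⟩, ?_, ?_⟩
  · intro h _ _ y hy
    exact copy_lt (div_lt_copies hy) (hb h _ (hmod y))
  · intro h _ _ t ht
    exact copy_lt (div_lt_copies ht) (hs h _ (Nat.mod_lt t (hc0 h))).1
  · intro h _ _ t ht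
    obtain ⟨h1, h2⟩ := hs h _ (Nat.mod_lt t (hc0 h))
    show (t / c h * N + s h (t % c h)) / N * c h + b h ((t / c h * N + s h (t % c h)) % N) = t
    rw [Nat.add_comm (t / c h * N), Nat.add_mul_div_right _ _ hN, Nat.div_eq_of_lt h1, Nat.zero_add,
      Nat.add_mul_mod_self_right, Nat.mod_eq_of_lt h1, h2, Nat.mul_comm, Nat.div_add_mod]
  · intro h h1 hk y _ y' _ hyy
    obtain ⟨h2, h3⟩ := copy_inj (hb h _ (hmod y)) (hb h _ (hmod y')) hyy
    show y / N * c (h + 1) + b (h + 1) (y % N) = y' / N * c (h + 1) + b (h + 1) (y' % N)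
    have h4 := ha h h1 hk _ _ ((hbb' h _ (hmod y) _ (hmod y') (hmod y) (hmod y')).1 h3)
    rw [h2, (hbb' (h + 1) _ (hmod y) _ (hmod y') (hmod y) (hmod y')).2 h4]
  · refine ⟨0, N, by positivity, ?_, ?_⟩
    · have : 2 * N ≤ g * N := Nat.mul_le_mul_right N hg
      omega
    · intro h _ _ h1
      have h2 := (copy_inj (hb h _ (hmod 0)) (hb h _ (hmod N)) h1).1
      rw [Nat.zero_div, Nat.div_self hN] at h2
      omega
  · intro h
    -- pairs in the same class
    have h1 : ∑ t ∈ range (g * c h),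
        ((range (g * N)).filter fun y => y / N * c h + b h (y % N) = t).card ^ 2 ≤
        (((range (g * N)) ×ˢ (range (g * N))).filter fun p : ℕ × ℕ =>
          p.1 / N * c h + b h (p.1 % N) = p.2 / N * c h + b h (p.2 % N)).card := by
      rw [card_eq_sum_card_fiberwise (f := fun p : ℕ × ℕ => p.1 / N * c h + b h (p.1 % N))
        (t := range (g * c h))]
      · refine sum_le_sum fun t _ => ?_
        rw [sq, ← card_product]
        refine card_le_card ?_
        rintro ⟨y, y'⟩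
        simp only [mem_product, mem_filter, mem_range]
        rintro ⟨⟨h1, h2⟩, h3, h4⟩
        exact ⟨⟨⟨h1, h3⟩, h2.trans h4.symm⟩, h2⟩
      · rintro ⟨y, y'⟩
        simp only [coe_filter, coe_range, mem_product, mem_range, Set.mem_ofPred_eq, Set.mem_Iio]
        rintro ⟨⟨h1, -⟩, -⟩
        exact copy_lt (div_lt_copies h1) (hb h _ (hmod y))
    refine h1.trans ?_
    have h2 : (((range (g * N)) ×ˢ (range (g * N))).filter fun p : ℕ × ℕ =>
          p.1 / N * c h + b h (p.1 % N) = p.2 / N * c h + b h (p.2 % N)).card ≤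
        (range g ×ˢ (univ.filter (fun p : Fin N × Fin N => a h p.1 = a h p.2))).card := by
      refine card_le_card_of_injOn (fun p => (p.1 / N,
        ((⟨p.1 % N, hmod p.1⟩ : Fin N), (⟨p.2 % N, hmod p.2⟩ : Fin N)))) ?_ ?_
      · rintro ⟨y, y'⟩
        simp only [coe_filter, mem_product, mem_range, Set.mem_ofPred_eq, coe_product,
          Set.mem_prod, mem_coe, mem_univ, true_and]
        rintro ⟨⟨h3, h4⟩, h5⟩
        exact ⟨div_lt_copies h3, (hbb' h _ (hmod y) _ (hmod y') (hmod y) (hmod y')).1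
          (copy_inj (hb h _ (hmod y)) (hb h _ (hmod y')) h5).2⟩
      · rintro ⟨y, y'⟩ hy ⟨z, z'⟩ hz hyz
        simp only [coe_filter, mem_product, mem_range, Set.mem_ofPred_eq] at hy hz
        simp only [Prod.mk.injEq, Fin.mk.injEq] at hyz
        have e1 := (copy_inj (hb h _ (hmod y)) (hb h _ (hmod y')) hy.2).1
        have e2 := (copy_inj (hb h _ (hmod z)) (hb h _ (hmod z')) hz.2).1
        have e3 : y = z := by
          rw [← Nat.div_add_mod y N, ← Nat.div_add_mod z N, hyz.1, hyz.2.1]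
        have e4 : y' = z' := by
          rw [← Nat.div_add_mod y' N, ← Nat.div_add_mod z' N, hyz.2.2, ← e1, ← e2, hyz.1]
        rw [e3, e4]
    refine h2.trans ?_
    rw [card_product, card_range]

end Pool.Agent.Lib.MP_b0a977_co.H62
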