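import Mathlib

/-!
# Layered forests with a clique on the top level: distances
-/

set_option autoImplicit false

namespace Pool.Agent.Lib.MP_b0a977_co.H62

open Finset

/-! ### Abstract part -/

section abs

variable {W : Type*} {G : SimpleGraph W} {L : ℕ} {lev : W → ℕ} {J : W → W → ℕ}

theorem walk_lip (f : W → ℤ) (hf : ∀ v w, G.Adj v w → f w ≤ f v + 1) {x y : W}
    (q : G.Walk x y) : f y ≤ f x + q.length := by
  induction q with
  | nil => simp
  | cons h q ih =>
    have := hf _ _ h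
    rw [SimpleGraph.Walk.length_cons]
    push_cast
    linarith

/-- from every vertex one can walk up to the top level -/
theorem walk_up (hlev : ∀ u, lev u ≤ L)
    (up : ∀ v, lev v < L → ∃ w, G.Adj v w ∧ lev w = lev v + 1) :
    ∀ (k : ℕ) (v : W), L - lev v = k → ∃ t, lev t = L ∧ ∃ q : G.Walk v t, q.length = k := by
  intro k
  induction k with
  | zero =>
    intro v hv
    exact ⟨v, by have := hlev v; omega, SimpleGraph.Walk.nil, rfl⟩
  | succ k ih =>
    intro v hv
    obtain ⟨w, hw, hl⟩ := up v (by omega)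
    obtain ⟨t, ht, q, hq⟩ := ih w (by omega)
    exact ⟨t, ht, SimpleGraph.Walk.cons hw q, by rw [SimpleGraph.Walk.length_cons, hq]⟩

theorem dist_upper (hlev : ∀ u, lev u ≤ L)
    (up : ∀ v, lev v < L → ∃ w, G.Adj v w ∧ lev w = lev v + 1)
    (top : ∀ v w, lev v = L → lev w = L → v ≠ w → G.Adj v w) (u v : W) :
    G.Reachable u v ∧ G.dist u v + lev u + lev v ≤ 2 * L + 1 ∧
      ((∀ v w, lev v = L → lev w = L → v = w) → G.dist u v + lev u + lev v ≤ 2 * L) := by
  obtain ⟨t, ht, q, hq⟩ := walk_up hlev up _ u rfl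
  obtain ⟨t', ht', q', hq'⟩ := walk_up hlev up _ v rfl
  have hu := hlev u
  have hv := hlev v
  by_cases htt : t = t'
  · subst htt
    have h1 := SimpleGraph.dist_le (q.append q'.reverse)
    rw [SimpleGraph.Walk.length_append, SimpleGraph.Walk.length_reverse, hq, hq'] at h1
    exact ⟨⟨q.append q'.reverse⟩, by omega, fun _ => by omega⟩
  · have h0 := top t t' ht ht' htt
    have h1 := SimpleGraph.dist_le (q.append (SimpleGraph.Walk.cons h0 q'.reverse))
    rw [SimpleGraph.Walk.length_append, SimpleGraph.Walk.length_cons,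
      SimpleGraph.Walk.length_reverse, hq, hq'] at h1
    exact ⟨⟨q.append (SimpleGraph.Walk.cons h0 q'.reverse)⟩, by omega,
      fun h => absurd (h t t' ht ht') htt⟩

theorem dist_lower (hconn : G.Connected) (hlev : ∀ u, lev u ≤ L)
    (hself : ∀ u, J u u = L + 1 - lev u) (htop : ∀ u v, lev v = L → J u v ≤ 1)
    (hadj : ∀ v w, G.Adj v w →
      (lev w = lev v + 1 ∧ ∀ u, J u v = J u w ∨ J u v = J u w + 1) ∨
      (lev v = lev w + 1 ∧ ∀ u, J u w = J u v ∨ J u w = J u v + 1) ∨ (lev v = L ∧ lev w = L))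
    (u v : W) : 2 * L + 1 ≤ G.dist u v + lev u + lev v + (2 * J u v - 1) := by
  obtain ⟨q, hq⟩ := hconn.exists_walk_length_eq_dist u v
  have h := walk_lip (G := G)
    (fun x => (2 * L + 1 : ℤ) - lev u - lev x - ((2 * J u x - 1 : ℕ) : ℤ)) ?_ q
  · rw [hq, hself u] at h
    have hu := hlev u
    have e : ((2 * (L + 1 - lev u) - 1 : ℕ) : ℤ) = 2 * L + 1 - 2 * lev u := by
      zify [show lev u ≤ L + 1 by omega, show 1 ≤ 2 * (L + 1 - lev u) by omega]
      ring
    rw [e] at h
    zify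
    linarith
  · intro x y hxy
    rcases hadj x y hxy with ⟨h1, h2⟩ | ⟨h1, h2⟩ | ⟨h1, h2⟩
    · rcases h2 u with h3 | h3 <;> rw [h3, h1] <;> push_cast <;> omega
    · rcases h2 u with h3 | h3 <;> rw [h3, h1] <;> push_cast <;> omega
    · have h3 := htop u x h1
      have h4 := htop u y h2
      rw [h1, h2]
      omega

end abs

/-! ### The layered forest -/

/-- The ancestor of the cell `c` of level `k`, `i` levels higher. -/
def anc (p : ℕ → ℕ → ℕ) (k c : ℕ) : ℕ → ℕ
  | 0 => c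
  | i + 1 => p (k + i) (anc p k c i)

theorem anc_succ' (p : ℕ → ℕ → ℕ) (k c i : ℕ) : anc p (k + 1) (p k c) i = anc p k c (i + 1) := by
  induction i with
  | zero => rfl
  | succ i ih =>
    rw [anc, ih, anc.eq_2 p k c (i + 1)]
    congr 1
    ring

theorem anc_lt {L : ℕ} {m : ℕ → ℕ} {p : ℕ → ℕ → ℕ}
    (hp : ∀ h < L, ∀ c < m h, p h c < m (h + 1)) {k c : ℕ} (hc : c < m k) :
    ∀ i : ℕ, k + i ≤ L → anc p k c i < m (k + i) := by
  intro i
  induction i with
  | zero => intro _; exact hc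
  | succ i ih =>
    intro hi
    exact hp (k + i) (by omega) _ (ih (by omega))

/-- The vertices. -/
abbrev VF (L : ℕ) (m : ℕ → ℕ) : Type := Σ h : Fin (L + 1), Fin (m h)

/-- Same cell at the level `h`. -/
def Same (p : ℕ → ℕ → ℕ) (k c k' c' h : ℕ) : Prop :=
  k ≤ h ∧ k' ≤ h ∧ anc p k c (h - k) = anc p k' c' (h - k')

instance (p : ℕ → ℕ → ℕ) (k c k' c' h : ℕ) : Decidable (Same p k c k' c' h) := by
  unfold Same; infer_instance

/-- The number of levels below `H` at which the cells agree. -/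
def JJ (p : ℕ → ℕ → ℕ) (H k c k' c' : ℕ) : ℕ := ((range H).filter fun h => Same p k c k' c' h).card

theorem JJ_self (p : ℕ → ℕ → ℕ) (H k c : ℕ) : JJ p H k c k c = H - k := by
  unfold JJ
  have : (range H).filter (fun h => Same p k c k c h) = Ico k H := by
    ext h
    simp only [mem_filter, mem_range, mem_Ico]
    constructor
    · rintro ⟨h1, h2, -⟩
      exact ⟨h2, h1⟩
    · rintro ⟨h1, h2⟩
      exact ⟨h2, h1, h1, rfl⟩
  rw [this, Nat.card_Ico]

theorem JJ_step (p : ℕ → ℕ → ℕ) (H k c k' c' : ℕ) :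
    JJ p H k c k' c' = JJ p H k c (k' + 1) (p k' c') ∨
      JJ p H k c k' c' = JJ p H k c (k' + 1) (p k' c') + 1 := by
  unfold JJ
  have h1 : (range H).filter (fun h => Same p k c (k' + 1) (p k' c') h) =
      ((range H).filter fun h => Same p k c k' c' h).erase k' := by
    ext h
    simp only [mem_filter, mem_range, mem_erase]
    simp only [Same]
    constructor
    · rintro ⟨h1, h2, h3, h4⟩
      refine ⟨by omega, h1, h2, by omega, ?_⟩
      rw [h4, anc_succ', show h - (k' + 1) + 1 = h - k' by omega]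
    · rintro ⟨h0, h1, h2, h3, h4⟩
      refine ⟨h1, h2, by omega, ?_⟩
      rw [h4, anc_succ', show h - (k' + 1) + 1 = h - k' by omega]
  rw [h1]
  by_cases h2 : k' ∈ (range H).filter fun h => Same p k c k' c' h
  · right
    rw [card_erase_add_one h2]
  · left
    rw [erase_eq_of_notMem h2]

theorem JJ_top (p : ℕ → ℕ → ℕ) (L k c c' : ℕ) : JJ p (L + 1) k c L c' ≤ 1 := by
  unfold JJ
  have : (range (L + 1)).filter (fun h => Same p k c L c' h) ⊆ {L} := by
    intro h
    simp only [mem_filter, mem_range, mem_singleton]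
    simp only [Same]
    omega
  exact (card_le_card this).trans (by simp)

theorem JJ_step' (p : ℕ → ℕ → ℕ) (H k c k' c' k'' c'' : ℕ) (h1 : k'' = k' + 1)
    (h2 : c'' = p k' c') :
    JJ p H k c k' c' = JJ p H k c k'' c'' ∨ JJ p H k c k' c' = JJ p H k c k'' c'' + 1 := by
  subst h1 h2
  exact JJ_step p H k c k' c'

theorem JJ_top' (p : ℕ → ℕ → ℕ) (L k c k' c' : ℕ) (h : k' = L) : JJ p (L + 1) k c k' c' ≤ 1 := by
  subst h
  exact JJ_top p _ k c c'

section graph

variable {n L : ℕ} {m : ℕ → ℕ} (p : ℕ → ℕ → ℕ) (E : Fin n ≃ VF L m)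

/-- Parent. -/
def Par (x y : Fin n) : Prop :=
  ((E y).1 : ℕ) = (E x).1 + 1 ∧ ((E y).2 : ℕ) = p (E x).1 (E x).2

/-- The graph. -/
def GF : SimpleGraph (Fin n) where
  Adj x y := Par p E x y ∨ Par p E y x ∨ (((E x).1 : ℕ) = L ∧ ((E y).1 : ℕ) = L ∧ x ≠ y)
  symm := ⟨by
    rintro x y (h | h | ⟨h1, h2, h3⟩)
    · exact Or.inr (Or.inl h)
    · exact Or.inl h
    · exact Or.inr (Or.inr ⟨h2, h1, h3.symm⟩)⟩
  loopless := ⟨by
    rintro x (h | h | ⟨_, _, h3⟩)
    · have := h.1; omega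
    · have := h.1; omega
    · exact h3 rfl⟩

variable {p}

theorem level_le (x : Fin n) : ((E x).1 : ℕ) ≤ L := by
  have := (E x).1.2
  omega

theorem up (hp : ∀ h < L, ∀ c < m h, p h c < m (h + 1)) (x : Fin n) (hx : ((E x).1 : ℕ) < L) :
    ∃ y, (GF p E).Adj x y ∧ ((E y).1 : ℕ) = (E x).1 + 1 := by
  have key : ∀ z z' : VF L m, z' = z → ((z'.1 : ℕ) = z.1 ∧ (z'.2 : ℕ) = z.2) := by
    rintro z _ rfl
    exact ⟨rfl, rfl⟩
  obtain ⟨h1, h2⟩ := key _ _ (E.apply_symm_apply
    ⟨⟨(E x).1 + 1, by omega⟩, ⟨p (E x).1 (E x).2, hp _ hx _ (E x).2.2⟩⟩)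
  exact ⟨_, Or.inl ⟨h1, h2⟩, h1⟩

theorem graph_dist (hp : ∀ h < L, ∀ c < m h, p h c < m (h + 1)) (hn : 0 < n) :
    (GF p E).Connected ∧
    (∀ x y, (GF p E).dist x y + (E x).1 + (E y).1 ≤ 2 * L + 1) ∧
    (m L = 1 → ∀ x y, (GF p E).dist x y + (E x).1 + (E y).1 ≤ 2 * L) ∧
    (∀ x y, 2 * L + 1 ≤ (GF p E).dist x y + (E x).1 + (E y).1 +
      (2 * JJ p (L + 1) (E x).1 (E x).2 (E y).1 (E y).2 - 1)) := by
  have hupper := dist_upper (G := GF p E) (lev := fun x => ((E x).1 : ℕ)) (level_le E) (up E hp)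
    (fun v w hv hw hne => Or.inr (Or.inr ⟨hv, hw, hne⟩))
  have : Nonempty (Fin n) := ⟨⟨0, hn⟩⟩
  have hconn : (GF p E).Connected := ⟨fun x y => (hupper x y).1⟩
  refine ⟨hconn, fun x y => (hupper x y).2.1, fun hm x y => (hupper x y).2.2 ?_, ?_⟩
  · intro v w hv hw
    apply E.injective
    have hv' := (E v).2.2
    have hw' := (E w).2.2
    rcases hEv : E v with ⟨a, b⟩
    rcases hEw : E w with ⟨a', b'⟩
    rw [hEv] at hv hv'
    rw [hEw] at hw hw'
    simp only at hv hw hv' hw'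
    have haa : a = a' := Fin.ext (by omega)
    subst haa
    have hbb : b = b' := by
      apply Fin.ext
      have hma : m a = 1 := by rw [hv, hm]
      omega
    rw [hbb]
  · exact dist_lower (G := GF p E) (lev := fun x => ((E x).1 : ℕ))
      (J := fun x y => JJ p (L + 1) (E x).1 (E x).2 (E y).1 (E y).2) hconn (level_le E)
      (fun u => JJ_self p (L + 1) _ _)
      (fun u v hv => JJ_top' p L _ _ _ _ hv)
      (by
        rintro v w (h | h | ⟨h1, h2, -⟩)
        · exact Or.inl ⟨h.1, fun u => JJ_step' p _ _ _ _ _ _ _ h.1 h.2⟩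
        · exact Or.inr (Or.inl ⟨h.1, fun u => JJ_step' p _ _ _ _ _ _ _ h.1 h.2⟩)
        · exact Or.inr (Or.inr ⟨h1, h2⟩))

/-- sums over the vertices -/
theorem sum_E {M : Type*} [AddCommMonoid M] (F : ℕ → ℕ → M) :
    ∑ x : Fin n, F (E x).1 (E x).2 = ∑ k ∈ range (L + 1), ∑ c ∈ range (m k), F k c := by
  rw [Equiv.sum_comp E (fun v => F v.1 v.2), Fintype.sum_sigma,
    ← Fin.sum_univ_eq_sum_range (fun k => ∑ c ∈ range (m k), F k c)]
  refine sum_congr rfl fun k _ => ?_
  rw [← Fin.sum_univ_eq_sum_range (fun c => F k c)]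

/-- The number of vertices in the cell `a` of the level `h`. -/
def cnt (m : ℕ → ℕ) (p : ℕ → ℕ → ℕ) (h a : ℕ) : ℕ :=
  ∑ k ∈ range (h + 1), ((range (m k)).filter fun c => anc p k c (h - k) = a).card

/-- Membership in the cell `a` of level `h`. -/
def In (p : ℕ → ℕ → ℕ) (k c h a : ℕ) : ℕ := if k ≤ h ∧ anc p k c (h - k) = a then 1 else 0

theorem sum_In (h a : ℕ) (hh : h ≤ L) : ∑ x : Fin n, In p (E x).1 (E x).2 h a = cnt m p h a := by
  rw [sum_E E (fun k c => In p k c h a)]
  unfold cnt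
  rw [← sum_subset (s₁ := range (h + 1)) (s₂ := range (L + 1))
    (range_subset_range.2 (by omega))]
  · refine sum_congr rfl fun k hk => ?_
    rw [mem_range] at hk
    rw [card_filter]
    refine sum_congr rfl fun c _ => ?_
    have hk' : k ≤ h := by omega
    simp only [In, hk', true_and]
  · intro k _ hk
    rw [mem_range] at hk
    refine sum_eq_zero fun c _ => ?_
    have hk' : ¬ k ≤ h := by omega
    simp only [In, hk', false_and, if_false]

theorem JJ_eq (hp : ∀ h < L, ∀ c < m h, p h c < m (h + 1)) (H : ℕ) (hH : H ≤ L + 1)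
    (k c k' c' : ℕ) (hc : c < m k) :
    JJ p H k c k' c' = ∑ h ∈ range H, ∑ a ∈ range (m h), In p k c h a * In p k' c' h a := by
  unfold JJ
  rw [card_filter]
  refine sum_congr rfl fun h hh => ?_
  rw [mem_range] at hh
  by_cases hk : k ≤ h
  · have h1 : anc p k c (h - k) < m h := by
      have := anc_lt hp hc (h - k) (by omega)
      rwa [show k + (h - k) = h by omega] at this
    rw [sum_eq_single_of_mem (anc p k c (h - k)) (mem_range.2 h1)]
    · by_cases hk' : k' ≤ h
      · simp only [Same, In, hk, hk', true_and, if_true, one_mul]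
        simp only [eq_comm]
      · simp only [Same, In, hk', false_and, and_false, if_false, mul_zero]
    · intro a _ ha
      simp only [In, hk, true_and, (Ne.symm ha), if_false, zero_mul]
  · simp only [Same, In, hk, false_and, if_false, zero_mul, sum_const_zero]

theorem sum_JJ (hp : ∀ h < L, ∀ c < m h, p h c < m (h + 1)) (H : ℕ) (hH : H ≤ L + 1) :
    ∑ x : Fin n, ∑ y : Fin n, JJ p H (E x).1 (E x).2 (E y).1 (E y).2 =
      ∑ h ∈ range H, ∑ a ∈ range (m h), cnt m p h a ^ 2 := by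
  have h1 : ∀ x y : Fin n, JJ p H (E x).1 (E x).2 (E y).1 (E y).2 =
      ∑ h ∈ range H, ∑ a ∈ range (m h), In p (E x).1 (E x).2 h a * In p (E y).1 (E y).2 h a :=
    fun x y => JJ_eq hp H hH _ _ _ _ (E x).2.2
  simp only [h1]
  have h2 : ∀ x : Fin n, ∑ y : Fin n, ∑ h ∈ range H, ∑ a ∈ range (m h),
      In p (E x).1 (E x).2 h a * In p (E y).1 (E y).2 h a =
      ∑ h ∈ range H, ∑ a ∈ range (m h), In p (E x).1 (E x).2 h a * cnt m p h a := by
    intro x
    rw [sum_comm]
    refine sum_congr rfl fun h hh => ?_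
    rw [sum_comm]
    refine sum_congr rfl fun a _ => ?_
    rw [← mul_sum, sum_In E h a (by rw [mem_range] at hh; omega)]
  simp only [h2]
  rw [sum_comm]
  refine sum_congr rfl fun h hh => ?_
  rw [sum_comm]
  refine sum_congr rfl fun a _ => ?_
  rw [← sum_mul, sum_In E h a (by rw [mem_range] at hh; omega), sq]

end graph

/-- The layered forest, with a clique on the top level. -/
theorem forest (n L H d : ℕ) (m : ℕ → ℕ) (p : ℕ → ℕ → ℕ)
    (hp : ∀ h < L, ∀ c < m h, p h c < m (h + 1)) (hn : n = ∑ h ∈ range (L + 1), m h)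
    (hd : (d = 2 * L + 1 ∧ H = L + 1) ∨ (d = 2 * L ∧ H = L ∧ m L = 1))
    (hfar : ∃ c c', c < m 0 ∧ c' < m 0 ∧ ∀ h < H, anc p 0 c h ≠ anc p 0 c' h) :
    ∃ G : SimpleGraph (Fin n), G.Connected ∧ G.diam = d ∧
      ∑ x, ∑ y, ((d : ℝ) - G.dist x y) ≤ 2 * n * ∑ h ∈ range (L + 1), (h : ℝ) * m h +
        2 * ∑ h ∈ range H, ∑ a ∈ range (m h), (cnt m p h a : ℝ) ^ 2 := by
  have hcard : Fintype.card (VF L m) = n := by
    rw [Fintype.card_sigma, hn, ← Fin.sum_univ_eq_sum_range]
    simp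
  let E : Fin n ≃ VF L m := (finCongr hcard.symm).trans (Fintype.equivFin _).symm
  obtain ⟨c, c', hc, hc', hfar⟩ := hfar
  have hn0 : 0 < n := by
    rw [hn]
    have : 0 < m 0 := by omega
    exact lt_of_lt_of_le this (single_le_sum (f := m) (fun _ _ => Nat.zero_le _)
      (mem_range.2 (Nat.succ_pos L)))
  obtain ⟨hconn, hup, hup1, hlow⟩ := graph_dist (p := p) E hp hn0
  have hle : ∀ x y, (GF p E).dist x y ≤ d := by
    intro x y
    rcases hd with ⟨hd, -⟩ | ⟨hd, -, hm⟩
    · have := hup x y; omega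
    · have := hup1 hm x y; omega
  -- the number of common levels
  have hJ : ∀ x y : Fin n, d ≤ (GF p E).dist x y + (E x).1 + (E y).1 +
      2 * JJ p H (E x).1 (E x).2 (E y).1 (E y).2 ∧
      (JJ p H (E x).1 (E x).2 (E y).1 (E y).2 = 0 →
        d ≤ (GF p E).dist x y + (E x).1 + (E y).1) := by
    intro x y
    have h1 := hlow x y
    rcases hd with ⟨hd, hH⟩ | ⟨hd, hH, hm⟩
    · rw [hH]; omega
    · have h2 : JJ p (L + 1) (E x).1 (E x).2 (E y).1 (E y).2 =
          JJ p H (E x).1 (E x).2 (E y).1 (E y).2 + 1 := by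
        rw [hH]
        unfold JJ
        rw [range_add_one, filter_insert, if_pos, card_insert_of_notMem]
        · simp
        · refine ⟨level_le E x, level_le E y, ?_⟩
          have e1 := anc_lt hp (E x).2.2 (L - (E x).1) (by have := level_le E x; omega)
          have e2 := anc_lt hp (E y).2.2 (L - (E y).1) (by have := level_le E y; omega)
          rw [show ((E x).1 : ℕ) + (L - (E x).1) = L by have := level_le E x; omega, hm] at e1
          rw [show ((E y).1 : ℕ) + (L - (E y).1) = L by have := level_le E y; omega, hm] at e2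
          omega
      rw [h2] at h1
      omega
  refine ⟨GF p E, hconn, ?_, ?_⟩
  · have : Nonempty (Fin n) := hconn.nonempty
    have htop : (GF p E).ediam ≠ ⊤ := SimpleGraph.connected_iff_ediam_ne_top.1 hconn
    apply le_antisymm
    · obtain ⟨x, y, hxy⟩ := SimpleGraph.exists_dist_eq_diam (G := GF p E)
      rw [← hxy]
      exact hle x y
    · have key : ∀ z z' : VF L m, z' = z → ((z'.1 : ℕ) = z.1 ∧ (z'.2 : ℕ) = z.2) := by
        rintro z _ rfl
        exact ⟨rfl, rfl⟩
      let x : Fin n := E.symm ⟨⟨0, by omega⟩, ⟨c, hc⟩⟩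
      let y : Fin n := E.symm ⟨⟨0, by omega⟩, ⟨c', hc'⟩⟩
      obtain ⟨hx1, hx2⟩ := key _ _ (E.apply_symm_apply ⟨⟨0, by omega⟩, ⟨c, hc⟩⟩)
      obtain ⟨hy1, hy2⟩ := key _ _ (E.apply_symm_apply ⟨⟨0, by omega⟩, ⟨c', hc'⟩⟩)
      have h1 := (hJ x y).2 (by
        unfold JJ
        rw [card_eq_zero, filter_eq_empty_iff]
        rintro h hh ⟨-, -, h3⟩
        rw [mem_range] at hh
        have e1 : anc p (E x).1 (E x).2 (h - (E x).1) = anc p 0 c h := by
          have : ∀ k c₁ : ℕ, k = 0 → c₁ = c → anc p k c₁ (h - k) = anc p 0 c h := by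
            rintro _ _ rfl rfl
            rfl
          exact this _ _ hx1 hx2
        have e2 : anc p (E y).1 (E y).2 (h - (E y).1) = anc p 0 c' h := by
          have : ∀ k c₁ : ℕ, k = 0 → c₁ = c' → anc p k c₁ (h - k) = anc p 0 c' h := by
            rintro _ _ rfl rfl
            rfl
          exact this _ _ hy1 hy2
        rw [e1, e2] at h3
        exact hfar h hh h3)
      have h2 : (GF p E).dist x y ≤ (GF p E).diam := SimpleGraph.dist_le_diam htop
      have hx1' : ((E x).1 : ℕ) = 0 := hx1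
      have hy1' : ((E y).1 : ℕ) = 0 := hy1
      omega
  · have h1 : ∀ x y : Fin n, (d : ℝ) - (GF p E).dist x y ≤ ((E x).1 : ℕ) + ((E y).1 : ℕ) +
        2 * (JJ p H (E x).1 (E x).2 (E y).1 (E y).2 : ℝ) := by
      intro x y
      have h2 : (d : ℝ) ≤ ((GF p E).dist x y + (E x).1 + (E y).1 +
        2 * JJ p H (E x).1 (E x).2 (E y).1 (E y).2 : ℕ) := by exact_mod_cast (hJ x y).1
      push_cast at h2
      linarith
    refine (sum_le_sum fun x _ => sum_le_sum fun y _ => h1 x y).trans (le_of_eq ?_)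
    have hHL : H ≤ L + 1 := by omega
    have h2 := sum_JJ (p := p) E hp H hHL
    have h3 : ∑ x : Fin n, (((E x).1 : ℕ) : ℝ) = ∑ h ∈ range (L + 1), (h : ℝ) * m h := by
      rw [sum_E E (fun k _ => (k : ℝ))]
      refine sum_congr rfl fun k _ => ?_
      rw [sum_const, card_range, nsmul_eq_mul, mul_comm]
    have h4 : (∑ x : Fin n, ∑ y : Fin n, (JJ p H (E x).1 (E x).2 (E y).1 (E y).2 : ℝ)) =
        ∑ h ∈ range H, ∑ a ∈ range (m h), (cnt m p h a : ℝ) ^ 2 := by
      exact_mod_cast h2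
    simp only [sum_add_distrib, ← mul_sum, sum_const, card_univ, Fintype.card_fin, nsmul_eq_mul, h3,
      h4]
    ring

end Pool.Agent.Lib.MP_b0a977_co.H62
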