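import Pool.Agent.Lib.MP_b0a977_co.H62.Forest

/-!
# Layered forests: the top level of an odd diameter counts once
-/

set_option autoImplicit false

namespace Pool.Agent.Lib.MP_b0a977_co.H62

open Finset

theorem JJ_succ_le (p : ℕ → ℕ → ℕ) (H k c k' c' : ℕ) :
    JJ p (H + 1) k c k' c' ≤ JJ p H k c k' c' + 1 := by
  unfold JJ
  rw [range_add_one, filter_insert]
  split_ifs
  · exact card_insert_le _ _
  · exact Nat.le_succ _

/-- The layered forest, with a clique on the top level. -/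
theorem forest2 (n L H₁ H₂ d : ℕ) (m : ℕ → ℕ) (p : ℕ → ℕ → ℕ)
    (hp : ∀ h < L, ∀ c < m h, p h c < m (h + 1)) (hn : n = ∑ h ∈ range (L + 1), m h)
    (hd : (d = 2 * L + 1 ∧ H₁ = L ∧ H₂ = L + 1) ∨ (d = 2 * L ∧ H₁ = L ∧ H₂ = L ∧ m L = 1))
    (hfar : ∃ c c', c < m 0 ∧ c' < m 0 ∧ ∀ h < H₂, anc p 0 c h ≠ anc p 0 c' h) :
    ∃ G : SimpleGraph (Fin n), G.Connected ∧ G.diam = d ∧
      ∑ x, ∑ y, ((d : ℝ) - G.dist x y) ≤ 2 * n * ∑ h ∈ range (L + 1), (h : ℝ) * m h +
        (∑ h ∈ range H₁, ∑ a ∈ range (m h), (cnt m p h a : ℝ) ^ 2 +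
          ∑ h ∈ range H₂, ∑ a ∈ range (m h), (cnt m p h a : ℝ) ^ 2) := by
  have hcard : Fintype.card (VF L m) = n := by
    rw [Fintype.card_sigma, hn, ← Fin.sum_univ_eq_sum_range]
    simp
  let E : Fin n ≃ VF L m := (finCongr hcard.symm).trans (Fintype.equivFin _).symm
  obtain ⟨c, c', hc, hc', hfar⟩ := hfar
  have hn0 : 0 < n := by
    rw [hn]
    have : 0 < m 0 := by omega
    exact lt_of_lt_of_le this (single_le_sum (f := m) (fun _ _ => Nat.zero_le _)
      (mem_range.2 (Nat.succ_pos L)))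
  obtain ⟨hconn, hup, hup1, hlow⟩ := graph_dist (p := p) E hp hn0
  have hle : ∀ x y, (GF p E).dist x y ≤ d := by
    intro x y
    rcases hd with ⟨hd, -⟩ | ⟨hd, -, -, hm⟩
    · have := hup x y; omega
    · have := hup1 hm x y; omega
  -- the number of common levels
  have hJ : ∀ x y : Fin n, d ≤ (GF p E).dist x y + (E x).1 + (E y).1 +
      (JJ p H₁ (E x).1 (E x).2 (E y).1 (E y).2 + JJ p H₂ (E x).1 (E x).2 (E y).1 (E y).2) ∧
      (JJ p H₂ (E x).1 (E x).2 (E y).1 (E y).2 = 0 →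
        d ≤ (GF p E).dist x y + (E x).1 + (E y).1) := by
    intro x y
    have h1 := hlow x y
    rcases hd with ⟨hd, hH₁, hH₂⟩ | ⟨hd, hH₁, hH₂, hm⟩
    · rw [hH₁, hH₂]
      have := JJ_succ_le p L (E x).1 (E x).2 (E y).1 (E y).2
      omega
    · have h2 : JJ p (L + 1) (E x).1 (E x).2 (E y).1 (E y).2 =
          JJ p L (E x).1 (E x).2 (E y).1 (E y).2 + 1 := by
        unfold JJ
        rw [range_add_one, filter_insert, if_pos, card_insert_of_notMem]
        · simp
        · refine ⟨level_le E x, level_le E y, ?_⟩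
          have e1 := anc_lt hp (E x).2.2 (L - (E x).1) (by have := level_le E x; omega)
          have e2 := anc_lt hp (E y).2.2 (L - (E y).1) (by have := level_le E y; omega)
          rw [show ((E x).1 : ℕ) + (L - (E x).1) = L by have := level_le E x; omega, hm] at e1
          rw [show ((E y).1 : ℕ) + (L - (E y).1) = L by have := level_le E y; omega, hm] at e2
          omega
      rw [h2] at h1
      rw [hH₁, hH₂]
      omega
  refine ⟨GF p E, hconn, ?_, ?_⟩
  · have : Nonempty (Fin n) := hconn.nonempty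
    have htop : (GF p E).ediam ≠ ⊤ := SimpleGraph.connected_iff_ediam_ne_top.1 hconn
    apply le_antisymm
    · obtain ⟨x, y, hxy⟩ := SimpleGraph.exists_dist_eq_diam (G := GF p E)
      rw [← hxy]
      exact hle x y
    · have key : ∀ z z' : VF L m, z' = z → ((z'.1 : ℕ) = z.1 ∧ (z'.2 : ℕ) = z.2) := by
        rintro z _ rfl
        exact ⟨rfl, rfl⟩
      let x : Fin n := E.symm ⟨⟨0, by omega⟩, ⟨c, hc⟩⟩
      let y : Fin n := E.symm ⟨⟨0, by omega⟩, ⟨c', hc'⟩⟩
      obtain ⟨hx1, hx2⟩ := key _ _ (E.apply_symm_apply ⟨⟨0, by omega⟩, ⟨c, hc⟩⟩)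
      obtain ⟨hy1, hy2⟩ := key _ _ (E.apply_symm_apply ⟨⟨0, by omega⟩, ⟨c', hc'⟩⟩)
      have h1 := (hJ x y).2 (by
        unfold JJ
        rw [card_eq_zero, filter_eq_empty_iff]
        rintro h hh ⟨-, -, h3⟩
        rw [mem_range] at hh
        have e1 : anc p (E x).1 (E x).2 (h - (E x).1) = anc p 0 c h := by
          have : ∀ k c₁ : ℕ, k = 0 → c₁ = c → anc p k c₁ (h - k) = anc p 0 c h := by
            rintro _ _ rfl rfl
            rfl
          exact this _ _ hx1 hx2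
        have e2 : anc p (E y).1 (E y).2 (h - (E y).1) = anc p 0 c' h := by
          have : ∀ k c₁ : ℕ, k = 0 → c₁ = c' → anc p k c₁ (h - k) = anc p 0 c' h := by
            rintro _ _ rfl rfl
            rfl
          exact this _ _ hy1 hy2
        rw [e1, e2] at h3
        exact hfar h hh h3)
      have h2 : (GF p E).dist x y ≤ (GF p E).diam := SimpleGraph.dist_le_diam htop
      have hx1' : ((E x).1 : ℕ) = 0 := hx1
      have hy1' : ((E y).1 : ℕ) = 0 := hy1
      omega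
  · have h1 : ∀ x y : Fin n, (d : ℝ) - (GF p E).dist x y ≤ ((E x).1 : ℕ) + ((E y).1 : ℕ) +
        ((JJ p H₁ (E x).1 (E x).2 (E y).1 (E y).2 : ℝ) +
          (JJ p H₂ (E x).1 (E x).2 (E y).1 (E y).2 : ℝ)) := by
      intro x y
      have h2 : (d : ℝ) ≤ ((GF p E).dist x y + (E x).1 + (E y).1 +
        (JJ p H₁ (E x).1 (E x).2 (E y).1 (E y).2 +
          JJ p H₂ (E x).1 (E x).2 (E y).1 (E y).2) : ℕ) := by exact_mod_cast (hJ x y).1
      push_cast at h2
      linarith
    refine (sum_le_sum fun x _ => sum_le_sum fun y _ => h1 x y).trans (le_of_eq ?_)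
    have hH₁ : H₁ ≤ L + 1 := by omega
    have hH₂ : H₂ ≤ L + 1 := by omega
    have h3 : ∑ x : Fin n, (((E x).1 : ℕ) : ℝ) = ∑ h ∈ range (L + 1), (h : ℝ) * m h := by
      rw [sum_E E (fun k _ => (k : ℝ))]
      refine sum_congr rfl fun k _ => ?_
      rw [sum_const, card_range, nsmul_eq_mul, mul_comm]
    have h4 : ∀ H ≤ L + 1, (∑ x : Fin n, ∑ y : Fin n,
        (JJ p H (E x).1 (E x).2 (E y).1 (E y).2 : ℝ)) =
        ∑ h ∈ range H, ∑ a ∈ range (m h), (cnt m p h a : ℝ) ^ 2 := by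
      intro H hH
      exact_mod_cast sum_JJ (p := p) E hp H hH
    simp only [sum_add_distrib, ← mul_sum, sum_const, card_univ, Fintype.card_fin, nsmul_eq_mul, h3,
      h4 _ hH₁, h4 _ hH₂]
    ring

end Pool.Agent.Lib.MP_b0a977_co.H62
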