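import Mathlib

/-!
# The thresholds of the halvings
-/

set_option autoImplicit false

namespace Pool.Agent.Lib.MP_b0a977_co.H62

open Finset

theorem card_all (P : ℕ → Prop) [DecidablePred P] (hP : ∀ i, P (i + 1) → P i) (J : ℕ) (hJ : P J) :
    ((range J).filter P).card = J := by
  have h : ∀ k i, i + k = J → P i := by
    intro k
    induction k with
    | zero => intro i hi; rw [add_zero] at hi; rwa [hi]
    | succ k ih => intro i hi; exact hP i (ih (i + 1) (by omega))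
  rw [filter_true_of_mem, card_range]
  intro i hi
  rw [mem_range] at hi
  exact h (J - i) i (by omega)

theorem two_pow_card (P : ℕ → Prop) [DecidablePred P] (hP : ∀ i, P (i + 1) → P i) (J : ℕ) :
    (2 : ℝ) ^ ((range J).filter P).card = 1 + ∑ i ∈ range J, if P i then (2 : ℝ) ^ i else 0 := by
  induction J with
  | zero => simp
  | succ J ih =>
    rw [sum_range_succ, ← add_assoc, ← ih]
    by_cases h : P J
    · have h1 := card_all P hP J h
      rw [range_add_one, filter_insert, if_pos h, card_insert_of_notMem (by simp), h1, if_pos h,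
        pow_succ]
      ring
    · rw [range_add_one, filter_insert, if_neg h, if_neg h, add_zero]

theorem half_pow_card (P : ℕ → Prop) [DecidablePred P] (hP : ∀ i, P (i + 1) → P i) (J : ℕ) :
    1 / (2 : ℝ) ^ ((range J).filter P).card =
      1 - ∑ i ∈ range J, if P i then 1 / (2 : ℝ) ^ (i + 1) else 0 := by
  induction J with
  | zero => simp
  | succ J ih =>
    rw [sum_range_succ, ← sub_sub, ← ih]
    by_cases h : P J
    · have h1 := card_all P hP J h
      rw [range_add_one, filter_insert, if_pos h, card_insert_of_notMem (by simp), h1, if_pos h,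
        pow_succ]
      field_simp
      norm_num
    · rw [range_add_one, filter_insert, if_neg h, if_neg h, sub_zero]

theorem sum_le_T (T l : ℕ) (hT : T ≤ l) :
    ∑ h ∈ range l, (if h + 1 ≤ T then ((h + 1 : ℕ) : ℝ) else 0) = T * (T + 1) / 2 := by
  have h0 : ∑ h ∈ range l, (if h + 1 ≤ T then ((h + 1 : ℕ) : ℝ) else 0) =
      ∑ h ∈ range T, ((h + 1 : ℕ) : ℝ) := by
    rw [← sum_filter]
    congr 1
    ext h
    simp only [mem_filter, mem_range]
    omega
  rw [h0]
  clear h0 hT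
  induction T with
  | zero => simp
  | succ T ih =>
    rw [sum_range_succ, ih]
    push_cast
    ring

theorem sum_one_T (T l : ℕ) (hT : T ≤ l) :
    ∑ h ∈ range l, (if h + 1 ≤ T then (1 : ℝ) else 0) = T := by
  have h0 : ∑ h ∈ range l, (if h + 1 ≤ T then (1 : ℝ) else 0) = ∑ h ∈ range T, (1 : ℝ) := by
    rw [← sum_filter]
    congr 1
    ext h
    simp only [mem_filter, mem_range]
    omega
  rw [h0]
  simp

theorem geom8 (J : ℕ) : ∑ i ∈ range J, (1 / 8 : ℝ) ^ i = 8 / 7 * (1 - (1 / 8) ^ J) := by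
  rw [geom_sum_eq (by norm_num)]
  ring

theorem geom2 (J : ℕ) : ∑ i ∈ range J, (1 / 2 : ℝ) ^ i = 2 * (1 - (1 / 2) ^ J) := by
  rw [geom_sum_eq (by norm_num)]
  ring

/-- The thresholds. -/
noncomputable def TT (a : ℝ) (l i : ℕ) : ℕ := ⌊a * l / 4 ^ i⌋₊

/-- The number of halvings that are still to come. -/
noncomputable def rr (a : ℝ) (l J h : ℕ) : ℕ := ((range J).filter fun i => h ≤ TT a l i).card

section

variable {a : ℝ} (ha : 0 ≤ a) (ha1 : a ≤ 1 / 2) (l J : ℕ)

include ha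

theorem t_anti (i : ℕ) : TT a l (i + 1) ≤ TT a l i := by
  refine Nat.floor_le_floor ?_
  refine div_le_div_of_nonneg_left (by positivity) (by positivity) ?_
  exact pow_le_pow_right₀ (by norm_num) (Nat.le_succ i)

theorem T_le (i : ℕ) : (TT a l i : ℝ) ≤ a * l / 4 ^ i := Nat.floor_le (by positivity)

omit ha in
theorem T_ge (i : ℕ) : a * l / 4 ^ i - 1 ≤ (TT a l i : ℝ) := by
  have := Nat.lt_floor_add_one (a * l / 4 ^ i)
  rw [TT]
  linarith

omit ha in
theorem rr_anti (h : ℕ) : rr a l J (h + 1) ≤ rr a l J h := by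
  refine card_le_card ?_
  intro i
  simp only [mem_filter]
  rintro ⟨h1, h2⟩
  exact ⟨h1, by omega⟩

omit ha in
theorem rr_le (h : ℕ) : rr a l J h ≤ J := by
  refine (card_filter_le _ _).trans ?_
  rw [card_range]

include ha1

theorem T_le_l (i : ℕ) : TT a l i ≤ l := by
  have h1 : (TT a l i : ℝ) ≤ l := by
    refine (T_le ha l i).trans ?_
    rw [div_le_iff₀ (by positivity)]
    have h2 : (1 : ℝ) ≤ 4 ^ i := one_le_pow₀ (by norm_num)
    have h3 : a * l ≤ 1 * l := mul_le_mul_of_nonneg_right (by linarith) (Nat.cast_nonneg _)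
    have h4 : (l : ℝ) * 1 ≤ l * 4 ^ i := mul_le_mul_of_nonneg_left h2 (Nat.cast_nonneg _)
    linarith
  exact_mod_cast h1

theorem levels_A : ∑ h ∈ range l, ((h + 1 : ℕ) : ℝ) * 2 ^ rr a l J (h + 1) ≤
    (l : ℝ) ^ 2 * (1 / 2 + 4 / 7 * a ^ 2) + l := by
  have h1 : ∑ h ∈ range l, ((h + 1 : ℕ) : ℝ) * 2 ^ rr a l J (h + 1) =
      l * (l + 1) / 2 + ∑ i ∈ range J, 2 ^ i * ((TT a l i : ℝ) * (TT a l i + 1) / 2) := by
    have h2 : ∀ h ∈ range l, ((h + 1 : ℕ) : ℝ) * 2 ^ rr a l J (h + 1) =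
        ((h + 1 : ℕ) : ℝ) + ∑ i ∈ range J, 2 ^ i * (if h + 1 ≤ TT a l i then ((h + 1 : ℕ) : ℝ) else 0) := by
      intro h _
      rw [rr, two_pow_card _ (fun i hi => hi.trans (t_anti ha l i)), mul_add, mul_one, mul_sum]
      congr 1
      refine sum_congr rfl fun i _ => ?_
      split_ifs
      · ring
      · ring
    rw [sum_congr rfl h2, sum_add_distrib]
    congr 1
    · have := sum_le_T l l le_rfl
      rw [← this]
      refine sum_congr rfl fun h hh => ?_
      rw [mem_range] at hh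
      rw [if_pos (by omega)]
    · rw [sum_comm]
      refine sum_congr rfl fun i _ => ?_
      rw [← mul_sum, sum_le_T _ _ (T_le_l ha ha1 l i)]
  rw [h1]
  have h3 : ∀ i ∈ range J, (2 : ℝ) ^ i * ((TT a l i : ℝ) * (TT a l i + 1) / 2) ≤
      a ^ 2 * l ^ 2 / 2 * (1 / 8) ^ i + a * l / 2 * (1 / 2) ^ i := by
    intro i _
    have h4 := T_le ha l i
    have h5 : (0 : ℝ) ≤ TT a l i := Nat.cast_nonneg _
    have h6 : (TT a l i : ℝ) * (TT a l i + 1) ≤ (a * l / 4 ^ i) * (a * l / 4 ^ i + 1) := by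
      refine mul_le_mul h4 (by linarith) (by positivity) (by positivity)
    have h7 : (2 : ℝ) ^ i * ((a * l / 4 ^ i) * (a * l / 4 ^ i + 1) / 2) =
        a ^ 2 * l ^ 2 / 2 * (1 / 8) ^ i + a * l / 2 * (1 / 2) ^ i := by
      have e8 : (8 : ℝ) ^ i = 2 ^ i * 4 ^ i := by rw [← mul_pow]; norm_num
      have e4 : (4 : ℝ) ^ i = 2 ^ i * 2 ^ i := by rw [← mul_pow]; norm_num
      rw [one_div_pow, one_div_pow, e8, e4]
      field_simp
    rw [← h7]
    refine mul_le_mul_of_nonneg_left ?_ (by positivity)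
    linarith
  have h8 := sum_le_sum h3
  rw [sum_add_distrib, ← mul_sum, ← mul_sum, geom8, geom2] at h8
  have hl : (0 : ℝ) ≤ l := Nat.cast_nonneg _
  have h9 : a ^ 2 * l ^ 2 / 2 * (8 / 7 * (1 - (1 / 8) ^ J)) ≤ a ^ 2 * l ^ 2 / 2 * (8 / 7) := by
    refine mul_le_mul_of_nonneg_left ?_ (by positivity)
    have : (0 : ℝ) ≤ (1 / 8) ^ J := by positivity
    linarith
  have h10 : a * l / 2 * (2 * (1 - (1 / 2) ^ J)) ≤ 1 / 2 * l := by
    have e1 : a * l / 2 * (2 * (1 - (1 / 2) ^ J)) ≤ a * l / 2 * 2 := by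
      refine mul_le_mul_of_nonneg_left ?_ (by positivity)
      have : (0 : ℝ) ≤ (1 / 2) ^ J := by positivity
      linarith
    have e2 : a * l ≤ 1 / 2 * l := mul_le_mul_of_nonneg_right ha1 hl
    linarith
  nlinarith

theorem levels_B : ∑ h ∈ range l, 1 / (2 : ℝ) ^ rr a l J (h + 1) ≤
    l * (1 - 4 / 7 * a * (1 - (1 / 8) ^ J)) + 1 := by
  have h1 : ∑ h ∈ range l, 1 / (2 : ℝ) ^ rr a l J (h + 1) =
      l - ∑ i ∈ range J, 1 / 2 ^ (i + 1) * (TT a l i : ℝ) := by
    have h2 : ∀ h ∈ range l, 1 / (2 : ℝ) ^ rr a l J (h + 1) =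
        1 - ∑ i ∈ range J, 1 / 2 ^ (i + 1) * (if h + 1 ≤ TT a l i then (1 : ℝ) else 0) := by
      intro h _
      rw [rr, half_pow_card _ (fun i hi => hi.trans (t_anti ha l i))]
      congr 1
      refine sum_congr rfl fun i _ => ?_
      split_ifs
      · ring
      · ring
    rw [sum_congr rfl h2, sum_sub_distrib]
    congr 1
    · simp
    · rw [sum_comm]
      refine sum_congr rfl fun i _ => ?_
      rw [← mul_sum, sum_one_T _ _ (T_le_l ha ha1 l i)]
  rw [h1]
  have h3 : ∀ i ∈ range J, a * l / 2 * (1 / 8) ^ i - 1 / 2 * (1 / 2) ^ i ≤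
      1 / 2 ^ (i + 1) * (TT a l i : ℝ) := by
    intro i _
    have h4 := T_ge (a := a) l i
    have h7 : 1 / (2 : ℝ) ^ (i + 1) * (a * l / 4 ^ i - 1) =
        a * l / 2 * (1 / 8) ^ i - 1 / 2 * (1 / 2) ^ i := by
      have e8 : (8 : ℝ) ^ i = 2 ^ i * 4 ^ i := by rw [← mul_pow]; norm_num
      rw [one_div_pow, one_div_pow, e8, pow_succ]
      field_simp
    rw [← h7]
    exact mul_le_mul_of_nonneg_left h4 (by positivity)
  have h8 := sum_le_sum h3
  rw [sum_sub_distrib, ← mul_sum, ← mul_sum, geom8, geom2] at h8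
  have h9 : (0 : ℝ) ≤ (1 / 2) ^ J := by positivity
  nlinarith

end

end Pool.Agent.Lib.MP_b0a977_co.H62
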