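import Pool.Agent.Lib.MP_b0a977_co.H62.Cells
import Pool.Agent.Lib.MP_b0a977_co.H62.Levels
import Pool.Agent.Lib.MP_b0a977_co.Sharp.Iface

/-!
# The upper bound for the deficiency
-/

set_option autoImplicit false

namespace Pool.Agent.Lib.MP_b0a977_co.H62

open Finset Real Pool.Agent.Lib.MP_b0a977_co.Sharp

theorem x0_le : x0 ≤ 1 := by
  have := x0_sq
  have := qq_bd
  nlinarith [x0_pos]

theorem x0_ge : 1 / 2 ≤ x0 := by
  have := x0_sq
  have := qq_bd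
  nlinarith [x0_pos]

theorem term1 (η n l s g A Y : ℝ) (hη : 0 < η) (hn : 0 < n) (hl : 1 ≤ η * l) (hl0 : 0 < l)
    (hs0 : 0 < s) (hg0 : 0 < g) (hgs' : g ≤ (1 + η) * s)
    (hA : A ≤ l ^ 2 * (1 / 2 + 4 / 7 * (qq / 2) ^ 2) + l) (h1 : n * s * l ^ 2 * qq = Y * x0) :
    2 * n * (g * A) ≤ Y * x0 * ((1 + η) * (2 - 4 / 7 * qq + 3 * η)) := by
  have hq := qq_eq
  have hq1 := qq_bd
  have hq0 := qq_pos
  have a1 : A ≤ l ^ 2 * (1 / 2 + 1 / 7 * qq ^ 2 + η) := by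
    have h3 : l * 1 ≤ l * (η * l) := mul_le_mul_of_nonneg_left hl hl0.le
    linarith
  have a2 : g * A ≤ ((1 + η) * s) * (l ^ 2 * (1 / 2 + 1 / 7 * qq ^ 2 + η)) := by
    refine (mul_le_mul_of_nonneg_left a1 hg0.le).trans ?_
    exact mul_le_mul_of_nonneg_right hgs' (by positivity)
  have a3 : 1 + 2 / 7 * qq ^ 2 + 2 * η ≤ qq * (2 - 4 / 7 * qq + 3 * η) := by
    have h4 : η * (2 / 3) ≤ η * qq := mul_le_mul_of_nonneg_left (by linarith [hq1.1]) hη.le
    linarith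
  calc 2 * n * (g * A) ≤ 2 * n * (((1 + η) * s) * (l ^ 2 * (1 / 2 + 1 / 7 * qq ^ 2 + η))) :=
        mul_le_mul_of_nonneg_left a2 (by positivity)
    _ = (1 + η) * (n * s * l ^ 2) * (1 + 2 / 7 * qq ^ 2 + 2 * η) := by ring
    _ ≤ (1 + η) * (n * s * l ^ 2) * (qq * (2 - 4 / 7 * qq + 3 * η)) :=
        mul_le_mul_of_nonneg_left a3 (by positivity)
    _ = (n * s * l ^ 2 * qq) * ((1 + η) * (2 - 4 / 7 * qq + 3 * η)) := by ring
    _ = Y * x0 * ((1 + η) * (2 - 4 / 7 * qq + 3 * η)) := by rw [h1]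

theorem term2 (η n l s g M B E Y : ℝ) (hη : 0 < η) (hn : 0 < n)
    (hl : 1 ≤ η * l) (hl0 : 0 < l) (hs0 : 0 < s) (hgs : s ≤ g)
    (hM0 : 0 ≤ M) (hM : M ≤ η * n) (hB0 : 0 ≤ B)
    (hB : B ≤ l * (1 - 4 / 7 * (qq / 2) * (1 - E)) + 1) (hE : E ≤ η)
    (h2 : n ^ 2 * l / s = Y * x0) :
    2 * ((n + M) ^ 2 / g * B) ≤ Y * x0 * (2 * (1 + η) ^ 2 * (1 - 2 / 7 * qq + 2 * η)) := by
  have hq1 := qq_bd
  have hq0 := qq_pos
  have b1 : B ≤ l * (1 - 2 / 7 * qq + 2 * η) := by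
    have e1 : qq * E ≤ qq * η := mul_le_mul_of_nonneg_left hE hq0.le
    have e2 : qq * η ≤ 1 * η := mul_le_mul_of_nonneg_right (by linarith [hq1.2]) hη.le
    have e3 : l * (qq * E) ≤ l * η := mul_le_mul_of_nonneg_left (by linarith) hl0.le
    linarith
  have b2 : (n + M) ^ 2 ≤ (1 + η) ^ 2 * n ^ 2 := by
    rw [← mul_pow]
    refine pow_le_pow_left₀ (by positivity) ?_ 2
    linarith
  have b3 : (n + M) ^ 2 / g ≤ (1 + η) ^ 2 * n ^ 2 / s :=
    div_le_div₀ (by positivity) b2 hs0 hgs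
  calc 2 * ((n + M) ^ 2 / g * B)
      ≤ 2 * ((1 + η) ^ 2 * n ^ 2 / s * (l * (1 - 2 / 7 * qq + 2 * η))) := by
        refine mul_le_mul_of_nonneg_left ?_ (by norm_num)
        exact mul_le_mul b3 b1 hB0 (by positivity)
    _ = (n ^ 2 * l / s) * (2 * (1 + η) ^ 2 * (1 - 2 / 7 * qq + 2 * η)) := by ring
    _ = Y * x0 * (2 * (1 + η) ^ 2 * (1 - 2 / 7 * qq + 2 * η)) := by rw [h2]

/-- the numerical estimate -/
theorem numeric (η n l R s g M A B E : ℝ) (hη : 0 < η) (hη2 : η ≤ 1 / 2) (hn : 0 < n)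
    (hl0 : 0 < l) (hl : 1 ≤ η * l) (hR : R ^ 2 = n * l) (hR0 : 0 < R) (hR6 : 6 ≤ η * R)
    (hs0 : 0 < s) (hs : s * l * x0 = R) (hgs : s ≤ g) (hgs' : g ≤ (1 + η) * s) (hM0 : 0 ≤ M)
    (hM : M ≤ η * n) (hB0 : 0 ≤ B) (hA : A ≤ l ^ 2 * (1 / 2 + 4 / 7 * (qq / 2) ^ 2) + l)
    (hB : B ≤ l * (1 - 4 / 7 * (qq / 2) * (1 - E)) + 1) (hE : E ≤ η) :
    2 * n * (g * A + (l + 1)) + 2 * (n + (n + M) ^ 2 / g * B) ≤ (Cs + 21 * η) * (n * l * R) := by
  have hq1 := qq_bd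
  have hx := x0_sq
  have hx0 := x0_pos
  have hx1 := x0_le
  have hl2 : 2 ≤ l := by
    have : η * l ≤ 1 / 2 * l := mul_le_mul_of_nonneg_right hη2 hl0.le
    linarith
  have hg0 : 0 < g := by linarith
  obtain ⟨Y, hY⟩ : ∃ Y, Y = n * l * R := ⟨_, rfl⟩
  have hY0 : 0 < Y := by rw [hY]; positivity
  have h1 : n * s * l ^ 2 * qq = Y * x0 := by
    have e : s * l * qq = R * x0 := by
      rw [← hx, ← hs]; ring
    calc n * s * l ^ 2 * qq = n * l * (s * l * qq) := by ring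
      _ = Y * x0 := by rw [e, hY]; ring
  have h2 : n ^ 2 * l / s = Y * x0 := by
    rw [div_eq_iff hs0.ne', hY]
    have e : R * (s * l * x0) = n * l := by rw [hs, ← sq, hR]
    calc n ^ 2 * l = n * (n * l) := by ring
      _ = n * (R * (s * l * x0)) := by rw [e]
      _ = n * l * R * x0 * s := by ring
  have hYx : 0 < Y * x0 := by positivity
  have T1 := term1 η n l s g A Y hη hn hl hl0 hs0 hg0 hgs' hA h1
  have T2 := term2 η n l s g M B E Y hη hn hl hl0 hs0 hgs hM0 hM hB0 hB hE h2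
  have T3 : 2 * n * (l + 1) + 2 * n ≤ η * Y := by
    have e1 : 6 * (n * l) ≤ η * R * (n * l) := mul_le_mul_of_nonneg_right hR6 (by positivity)
    have e : η * Y = η * R * (n * l) := by rw [hY]; ring
    have e2 : n * 2 ≤ n * l := mul_le_mul_of_nonneg_left hl2 hn.le
    linarith
  have T4 : (1 + η) * (2 - 4 / 7 * qq + 3 * η) + 2 * (1 + η) ^ 2 * (1 - 2 / 7 * qq + 2 * η) ≤
      (4 - 8 / 7 * qq) + 20 * η := by
    have hη3 : η * η ≤ 1 / 2 * η := mul_le_mul_of_nonneg_right hη2 hη.le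
    have hη4 : η * (η * η) ≤ 1 / 2 * (1 / 2 * η) :=
      mul_le_mul hη2 hη3 (by positivity) (by norm_num)
    have hqη : 7 / 10 * η ≤ qq * η := mul_le_mul_of_nonneg_right (by linarith [hq1.1]) hη.le
    have hqη2 : 0 ≤ qq * (η * η) := by have := qq_pos; positivity
    linarith
  have T5 := mul_le_mul_of_nonneg_left T4 hYx.le
  have T6 : Y * x0 * (20 * η) ≤ Y * (20 * η) := by
    have e1 : Y * x0 ≤ Y := by
      have := mul_le_mul_of_nonneg_left hx1 hY0.le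
      rwa [mul_one] at this
    exact mul_le_mul_of_nonneg_right e1 (by positivity)
  have hCs : Cs = x0 * (4 - 8 / 7 * qq) := rfl
  rw [hCs, ← hY]
  have T7 : 2 * n * (g * A + (l + 1)) + 2 * (n + (n + M) ^ 2 / g * B) =
      2 * n * (g * A) + 2 * ((n + M) ^ 2 / g * B) + (2 * n * (l + 1) + 2 * n) := by ring
  have T8 : Y * x0 * ((1 + η) * (2 - 4 / 7 * qq + 3 * η)) +
      Y * x0 * (2 * (1 + η) ^ 2 * (1 - 2 / 7 * qq + 2 * η)) ≤
      Y * x0 * (4 - 8 / 7 * qq) + Y * (20 * η) := by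
    calc Y * x0 * ((1 + η) * (2 - 4 / 7 * qq + 3 * η)) +
      Y * x0 * (2 * (1 + η) ^ 2 * (1 - 2 / 7 * qq + 2 * η)) = Y * x0 *
        ((1 + η) * (2 - 4 / 7 * qq + 3 * η) + 2 * (1 + η) ^ 2 * (1 - 2 / 7 * qq + 2 * η)) := by ring
      _ ≤ Y * x0 * ((4 - 8 / 7 * qq) + 20 * η) := T5
      _ = Y * x0 * (4 - 8 / 7 * qq) + Y * x0 * (20 * η) := by ring
      _ ≤ _ := by linarith
  rw [T7]
  calc 2 * n * (g * A) + 2 * ((n + M) ^ 2 / g * B) + (2 * n * (l + 1) + 2 * n)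
      ≤ Y * x0 * (4 - 8 / 7 * qq) + Y * (20 * η) + η * Y := by linarith
    _ = (x0 * (4 - 8 / 7 * qq) + 21 * η) * Y := by ring

theorem le_of_sq {x y : ℝ} (hy : 0 ≤ y) (h : x ^ 2 ≤ y ^ 2) : x ≤ y := by
  by_contra h1
  push Not at h1
  have := pow_lt_pow_left₀ h1 hy (two_ne_zero)
  linarith

theorem final_cmp (η n l d R ε : ℝ) (hη : 0 < η) (hηε : 16 * η ≤ ε) (hn : 0 < n) (hl0 : 0 < l)
    (hld : 2 * l ≤ d) (hR : R = √(n * l)) :
    (Cs + 21 * η) * (n * l * R) ≤ (kappa + ε) * (d * n) * √(d * n) := by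
  have hd0 : 0 < d := by linarith
  have hR0 : 0 < R := by rw [hR]; positivity
  have hdn : 2 * (n * l) ≤ d * n := by
    have : n * (2 * l) ≤ n * d := mul_le_mul_of_nonneg_left hld hn.le
    linarith
  have hZ0 : 0 < √(d * n) := by positivity
  have h1 : √2 * R ≤ √(d * n) := by
    rw [hR, ← Real.sqrt_mul (by norm_num)]
    exact Real.sqrt_le_sqrt hdn
  have h2 : R ≤ √(d * n) := by
    rw [hR]
    refine Real.sqrt_le_sqrt ?_
    have : 0 < n * l := by positivity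
    linarith
  have h8 : √8 = 2 * √2 := by
    rw [show (8 : ℝ) = 2 ^ 2 * 2 by norm_num, Real.sqrt_mul (by norm_num), Real.sqrt_sq (by norm_num)]
  have h3 : √8 * (n * l * R) ≤ d * n * √(d * n) := by
    rw [h8]
    calc 2 * √2 * (n * l * R) = (2 * (n * l)) * (√2 * R) := by ring
      _ ≤ d * n * √(d * n) := mul_le_mul hdn h1 (by positivity) (by positivity)
  have h4 : 2 * (n * l * R) ≤ d * n * √(d * n) := by
    calc 2 * (n * l * R) = (2 * (n * l)) * R := by ring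
      _ ≤ d * n * √(d * n) := mul_le_mul hdn h2 (by positivity) (by positivity)
  have h5 : kappa * (√8 * (n * l * R)) ≤ kappa * (d * n * √(d * n)) :=
    mul_le_mul_of_nonneg_left h3 kappa_pos.le
  have h6 : 21 * η * (n * l * R) ≤ ε * (d * n * √(d * n)) := by
    have e1 : 21 * η * (n * l * R) ≤ 21 / 2 * η * (d * n * √(d * n)) := by
      have := mul_le_mul_of_nonneg_left h4 (show 0 ≤ 21 / 2 * η by positivity)
      linarith
    refine e1.trans (mul_le_mul_of_nonneg_right ?_ (by positivity))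
    linarith
  rw [Cs_eq]
  linarith

theorem ub : UBS := by
  intro ε hε
  obtain ⟨η, hη, hη2, hηε⟩ : ∃ η : ℝ, 0 < η ∧ η ≤ 1 / 2 ∧ 16 * η ≤ ε := by
    refine ⟨min (1 / 2) (ε / 16), lt_min (by norm_num) (by positivity), min_le_left _ _, ?_⟩
    have := min_le_right (1 / 2) (ε / 16)
    linarith
  obtain ⟨J, hJ⟩ := exists_pow_lt_of_lt_one hη (by norm_num : (1 / 8 : ℝ) < 1)
  obtain ⟨K0, hK0⟩ : ∃ K0 : ℝ, K0 = 64 * 4 ^ J / η ^ 2 + 4 / η + 10 := ⟨_, rfl⟩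
  refine ⟨⌈K0⌉₊, fun n d hd hn => ?_⟩
  have hdR : K0 ≤ d := (Nat.le_ceil _).trans (by exact_mod_cast hd)
  have hnR : K0 * d ≤ n := by
    have h1 : ((⌈K0⌉₊ * d : ℕ) : ℝ) ≤ n := by exact_mod_cast hn
    rw [Nat.cast_mul] at h1
    exact (mul_le_mul_of_nonneg_right (Nat.le_ceil _) (Nat.cast_nonneg _)).trans h1
  have p1 : 0 < 64 * 4 ^ J / η ^ 2 := by positivity
  have p2 : 0 < 4 / η := by positivity
  have hd10 : 10 < d := by
    have : (10 : ℝ) < d := by linarith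
    exact_mod_cast this
  obtain ⟨l, e, he, hde⟩ : ∃ l e : ℕ, e ≤ 1 ∧ d = 2 * l + 1 + e :=
    ⟨(d - 1) / 2, (d - 1) % 2, by omega, by omega⟩
  have hl4 : 4 ≤ l := by omega
  have hl4R : (4 : ℝ) ≤ l := by exact_mod_cast hl4
  have hld : (2 : ℝ) * l ≤ d := by exact_mod_cast (show 2 * l ≤ d by omega)
  have hdl : (d : ℝ) ≤ 2 * l + 2 := by exact_mod_cast (show d ≤ 2 * l + 2 by omega)
  have hl0 : (0 : ℝ) < l := by linarith
  have hd0 : (0 : ℝ) < d := by linarith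
  have hlη : 1 ≤ η * l := by
    have h1 : 4 / η ≤ 2 * l := by linarith
    rw [div_le_iff₀ hη] at h1
    linarith
  -- the size of `n`
  have hn2 : 64 * 4 ^ J * (d : ℝ) ≤ η ^ 2 * n := by
    have h1 : 64 * 4 ^ J / η ^ 2 * d ≤ n := by
      have : 64 * 4 ^ J / η ^ 2 * d ≤ K0 * d := by
        refine mul_le_mul_of_nonneg_right ?_ hd0.le
        linarith
      linarith
    rw [div_mul_eq_mul_div, div_le_iff₀ (by positivity)] at h1
    linarith
  have h4J : (1 : ℝ) ≤ 4 ^ J := one_le_pow₀ (by norm_num)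
  have hn3 : 64 * (d : ℝ) ≤ η ^ 2 * n := by
    have : 1 * (64 * (d : ℝ)) ≤ 4 ^ J * (64 * d) := mul_le_mul_of_nonneg_right h4J (by positivity)
    linarith
  have hn0 : (0 : ℝ) < n := by
    by_contra h
    push Not at h
    have : η ^ 2 * (n : ℝ) ≤ 0 := mul_nonpos_of_nonneg_of_nonpos (by positivity) h
    linarith
  have hηn : η ^ 2 * (n : ℝ) ≤ n := by
    have h1 : η ^ 2 ≤ 1 := by
      have : η ^ 2 ≤ 1 ^ 2 := pow_le_pow_left₀ hη.le (by linarith) 2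
      linarith
    have := mul_le_mul_of_nonneg_right h1 hn0.le
    linarith
  obtain ⟨R, hRdef⟩ : ∃ R : ℝ, R = √(n * l) := ⟨_, rfl⟩
  have hR : R ^ 2 = n * l := by rw [hRdef, Real.sq_sqrt (by positivity)]
  have hR0 : 0 < R := by rw [hRdef]; positivity
  have hR6 : 6 ≤ η * R := by
    refine le_of_sq (by positivity) ?_
    rw [mul_pow, hR]
    have : η ^ 2 * (n : ℝ) * 1 ≤ η ^ 2 * n * l :=
      mul_le_mul_of_nonneg_left (by linarith) (by positivity)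
    linarith
  have hx := x0_sq
  have hx0 := x0_pos
  have hx1 := x0_le
  have hx2 := x0_ge
  obtain ⟨s, hsdef⟩ : ∃ s : ℝ, s = R / (l * x0) := ⟨_, rfl⟩
  have hs0 : 0 < s := by rw [hsdef]; positivity
  have hs : s * l * x0 = R := by rw [hsdef]; field_simp
  have hs1 : 1 ≤ η * s := by
    rw [hsdef, ← mul_div_assoc, le_div_iff₀ (by positivity), one_mul]
    refine le_of_sq (by positivity) ?_
    rw [mul_pow, mul_pow, hR, hx]
    have h1 : (l : ℝ) * qq ≤ η ^ 2 * n := by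
      have : (l : ℝ) * qq ≤ l * 1 := mul_le_mul_of_nonneg_left (by linarith [qq_bd.2]) hl0.le
      linarith
    have := mul_le_mul_of_nonneg_right h1 hl0.le
    linarith
  have hs2 : 2 ≤ s := by
    have : η * s ≤ 1 / 2 * s := mul_le_mul_of_nonneg_right hη2 hs0.le
    linarith
  obtain ⟨g, hgdef⟩ : ∃ g : ℕ, g = ⌈s⌉₊ := ⟨_, rfl⟩
  have hgs : s ≤ g := by rw [hgdef]; exact Nat.le_ceil s
  have hgs' : (g : ℝ) ≤ (1 + η) * s := by
    have : (g : ℝ) < s + 1 := by rw [hgdef]; exact Nat.ceil_lt_add_one hs0.le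
    linarith
  have hg2 : 2 ≤ g := by
    have : (2 : ℝ) ≤ g := by linarith
    exact_mod_cast this
  have hM : (g : ℝ) * 2 ^ J * (l + 1) ≤ η * n := by
    have h1 : (g : ℝ) * 2 ^ J * (l + 1) ≤ 8 * 2 ^ J * R := by
      have e1 : (g : ℝ) ≤ 2 * s := by
        have : η * s ≤ 1 / 2 * s := mul_le_mul_of_nonneg_right hη2 hs0.le
        linarith
      have e2 : (l : ℝ) + 1 ≤ 2 * l := by linarith
      have e3 : s * l ≤ 2 * R := by
        have : s * l * (1 / 2) ≤ s * l * x0 := mul_le_mul_of_nonneg_left hx2 (by positivity)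
        linarith
      calc (g : ℝ) * 2 ^ J * (l + 1) = 2 ^ J * (g * (l + 1)) := by ring
        _ ≤ 2 ^ J * ((2 * s) * (2 * l)) := by
            refine mul_le_mul_of_nonneg_left ?_ (by positivity)
            exact mul_le_mul e1 e2 (by positivity) (by positivity)
        _ = 2 ^ J * (4 * (s * l)) := by ring
        _ ≤ 2 ^ J * (4 * (2 * R)) := by
            refine mul_le_mul_of_nonneg_left ?_ (by positivity)
            linarith
        _ = 8 * 2 ^ J * R := by ring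
    refine h1.trans (le_of_sq (by positivity) ?_)
    rw [mul_pow, mul_pow, mul_pow, hR]
    have e4 : ((2 : ℝ) ^ J) ^ 2 = 4 ^ J := by
      rw [← pow_mul, mul_comm, pow_mul]; norm_num
    rw [e4]
    have e5 : 64 * 4 ^ J * (l : ℝ) ≤ η ^ 2 * n := by
      have : 64 * 4 ^ J * (l : ℝ) ≤ 64 * 4 ^ J * d :=
        mul_le_mul_of_nonneg_left (by linarith) (by positivity)
      linarith
    have e6 := mul_le_mul_of_nonneg_right e5 hn0.le
    linarith
  have hM' : (g : ℝ) * 2 ^ J * (l + 1) ≤ 1 / 2 * n :=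
    hM.trans (mul_le_mul_of_nonneg_right hη2 hn0.le)
  have hN : g * 2 ^ J * (l + 1) + e ≤ n := by
    have h1 : (e : ℝ) ≤ 1 := by exact_mod_cast he
    have h2 : ((g * 2 ^ J * (l + 1) + e : ℕ) : ℝ) ≤ n := by
      push_cast
      linarith
    exact_mod_cast h2
  have hq2 : 0 ≤ qq / 2 := by have := qq_pos; positivity
  have hq3 : qq / 2 ≤ 1 / 2 := by linarith [qq_bd.2]
  obtain ⟨G, hG1, hG2, hG3⟩ := cells n g J l e (rr (qq / 2) l J) (rr_anti l J) (rr_le l J) hg2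
    (by omega) he hN
  refine ⟨G, hG1, hG2.trans hde.symm, ?_⟩
  rw [hde]
  refine hG3.trans ?_
  have hA := levels_A hq2 hq3 l J
  have hB := levels_B hq2 hq3 l J
  have hB0 : 0 ≤ ∑ h ∈ range l, 1 / (2 : ℝ) ^ rr (qq / 2) l J (h + 1) :=
    sum_nonneg fun _ _ => by positivity
  have h1 := numeric η n l R s g (g * 2 ^ J * (l + 1)) _ _ ((1 / 8) ^ J) hη hη2 hn0 hl0 hlη hR hR0
    hR6 hs0 hs hgs hgs' (by positivity) hM hB0 hA hB hJ.le
  refine h1.trans ?_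
  rw [← hde]
  exact final_cmp η n l d R ε hη hηε hn0 hl0 hld hRdef

end Pool.Agent.Lib.MP_b0a977_co.H62
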