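import Pool.Agent.Lib.MP_b0a977_co.H62.ChainD

/-!
# The upper bound for every fixed diameter
-/

set_option autoImplicit false

namespace Pool.Agent.Lib.MP_b0a977_co.H62

open Finset Pool.Agent.Lib.MP_b0a977_co.Sharp

theorem numD (x α β N k g ε : ℝ) (hx : 1 ≤ x) (hα : 1 ≤ α) (hβ : 1 ≤ β) (hN : 1 ≤ N) (hk : 0 ≤ k)
    (hg1 : x * α / (β * N) ≤ g) (hg2 : g ≤ x * α / (β * N) + 1)
    (hK : β ^ 2 + 2 * (k + 2) + 2 * (1 + k) * α ^ 2 + (1 + k) ^ 2 * (α + 1) * α ^ 2 ≤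
      x * (ε / 2)) :
    2 * x ^ 2 * (g * β ^ 2 / 2 + (k + 1)) +
      (2 * x ^ 2 + (x ^ 2 / (g * N) + 1 + k) ^ 2 * (g * α ^ 2)) ≤
      (2 * (α * β) / N + ε / 2) * (x ^ 2 * x) := by
  set s := x * α / (β * N) with hs
  have hx0 : 0 < x := by linarith
  have hα0 : 0 < α := by linarith
  have hβ0 : 0 < β := by linarith
  have hN0 : 0 < N := by linarith
  have hs0 : 0 < s := by positivity
  have hg0 : 0 < g := by linarith
  have h1 : x ^ 2 * g * β ^ 2 ≤ x ^ 2 * x * (α * β) / N + x ^ 2 * β ^ 2 := by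
    have : x ^ 2 * x * (α * β) / N = x ^ 2 * s * β ^ 2 := by
      rw [hs]; field_simp
    rw [this]
    have h : x ^ 2 * β ^ 2 * g ≤ x ^ 2 * β ^ 2 * (s + 1) :=
      mul_le_mul_of_nonneg_left hg2 (by positivity)
    linarith
  have h2 : (x ^ 2 / (g * N) + 1 + k) ^ 2 * (g * α ^ 2) =
      x ^ 4 * α ^ 2 / (g * N ^ 2) + 2 * x ^ 2 * (1 + k) * α ^ 2 / N + (1 + k) ^ 2 * g * α ^ 2 := by
    field_simp
    ring
  have h3 : x ^ 4 * α ^ 2 / (g * N ^ 2) ≤ x ^ 2 * x * (α * β) / N := by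
    have : x ^ 2 * x * (α * β) / N = x ^ 4 * α ^ 2 / (s * N ^ 2) := by
      rw [hs]; field_simp
    rw [this]
    gcongr
  have h4 : 2 * x ^ 2 * (1 + k) * α ^ 2 / N ≤ x ^ 2 * (2 * (1 + k) * α ^ 2) := by
    rw [div_le_iff₀ hN0]
    have : 0 ≤ x ^ 2 * (2 * (1 + k) * α ^ 2) := by positivity
    nlinarith
  have h5 : g ≤ x ^ 2 * (α + 1) := by
    have h6 : s ≤ x * α := by
      rw [hs, div_le_iff₀ (by positivity)]
      have : 1 ≤ β * N := by nlinarith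
      have h7 : 0 ≤ x * α := by positivity
      nlinarith
    have h8 : x ≤ x ^ 2 := by nlinarith
    have h9 : 1 ≤ x ^ 2 := by nlinarith
    nlinarith
  have h6 : (1 + k) ^ 2 * g * α ^ 2 ≤ x ^ 2 * ((1 + k) ^ 2 * (α + 1) * α ^ 2) := by
    have h : (1 + k) ^ 2 * α ^ 2 * g ≤ (1 + k) ^ 2 * α ^ 2 * (x ^ 2 * (α + 1)) :=
      mul_le_mul_of_nonneg_left h5 (by positivity)
    linarith
  have h7 := mul_le_mul_of_nonneg_left hK (sq_nonneg x)
  have h8 : (2 * (α * β) / N + ε / 2) * (x ^ 2 * x) =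
      x ^ 2 * x * (α * β) / N + x ^ 2 * x * (α * β) / N + x ^ 2 * (x * (ε / 2)) := by
    ring
  rw [h2, h8]
  linarith

/-- The upper bound for every fixed diameter. -/
theorem ubD : UBD := by
  classical
  intro d hd ε hε
  have hne : (chainVals d).Nonempty :=
    ⟨_, 1, fun _ _ => 0, one_pos, fun _ _ _ _ _ _ => rfl, rfl⟩
  obtain ⟨r, ⟨N, a, hN, hnest, hr⟩, hrlt⟩ := Real.lt_sInf_add_pos hne (half_pos hε)
  obtain ⟨k, hk⟩ : ∃ k, k = (d - 1) / 2 := ⟨_, rfl⟩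
  obtain ⟨e, he⟩ : ∃ e, e = d - 1 - 2 * k := ⟨_, rfl⟩
  have hk1 : 1 ≤ k := by omega
  have he1 : e ≤ 1 := by omega
  have hd' : 2 * k + 1 + e = d := by omega
  set c : ℕ → ℕ := fun h => (univ.image (a h)).card with hc
  set P : ℕ → ℕ := fun h => (univ.filter (fun p : Fin N × Fin N => a h p.1 = a h p.2)).card with hP
  have hA : pairsSum d N a = ∑ i ∈ Icc 1 k, al d i * P i := by rw [pairsSum, hk]
  have hB : cellsSum d N a = ∑ i ∈ Icc 1 k, 2 * i * c i := by rw [cellsSum, hk]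
  have hc0 : ∀ h, 0 < c h := fun h => card_pos.2 ⟨a h ⟨0, hN⟩, mem_image_of_mem _ (mem_univ _)⟩
  have hP0 : ∀ h, 0 < P h := fun h => card_pos.2 ⟨(⟨0, hN⟩, ⟨0, hN⟩), by simp⟩
  have hal : ∀ h, 0 < al d h := by
    intro h
    rw [al]
    split_ifs <;> norm_num
  have hA1 : 1 ≤ pairsSum d N a := by
    rw [hA]
    exact Nat.succ_le_of_lt
      (sum_pos (fun i _ => Nat.mul_pos (hal i) (hP0 i)) ⟨1, mem_Icc.2 ⟨le_rfl, hk1⟩⟩)
  have hB1 : 1 ≤ cellsSum d N a := by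
    rw [hB]
    refine Nat.succ_le_of_lt (sum_pos (fun i hi => ?_) ⟨1, mem_Icc.2 ⟨le_rfl, hk1⟩⟩)
    rw [mem_Icc] at hi
    exact Nat.mul_pos (by omega) (hc0 i)
  obtain ⟨W, hW⟩ : ∃ W, W = N + ∑ h ∈ Icc 1 k, c h := ⟨_, rfl⟩
  obtain ⟨α, hα⟩ : ∃ α, α = √(pairsSum d N a : ℝ) := ⟨_, rfl⟩
  obtain ⟨β, hβ⟩ : ∃ β, β = √(cellsSum d N a : ℝ) := ⟨_, rfl⟩
  have hA1' : (1 : ℝ) ≤ pairsSum d N a := by exact_mod_cast hA1
  have hB1' : (1 : ℝ) ≤ cellsSum d N a := by exact_mod_cast hB1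
  have hα1 : 1 ≤ α := by rw [hα]; exact Real.one_le_sqrt.2 hA1'
  have hβ1 : 1 ≤ β := by rw [hβ]; exact Real.one_le_sqrt.2 hB1'
  have hα2 : α ^ 2 = pairsSum d N a := by rw [hα]; exact Real.sq_sqrt (by linarith)
  have hβ2 : β ^ 2 = cellsSum d N a := by rw [hβ]; exact Real.sq_sqrt (by linarith)
  have hr' : r = 2 * (α * β) / N := by
    rw [hr, Real.sqrt_mul (by linarith), ← hα, ← hβ]
  have hN1 : (1 : ℝ) ≤ N := by exact_mod_cast hN
  obtain ⟨K, hK⟩ : ∃ K, K = β ^ 2 + 2 * ((k : ℝ) + 2) + 2 * (1 + (k : ℝ)) * α ^ 2 +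
    (1 + (k : ℝ)) ^ 2 * (α + 1) * α ^ 2 := ⟨_, rfl⟩
  have hK0 : 0 ≤ K := by
    rw [hK]
    have : 0 ≤ α := by linarith
    positivity
  obtain ⟨R, hR⟩ : ∃ R, R = 2 * K / ε + (α * W + W + 1) + β * N := ⟨_, rfl⟩
  have hα0 : 0 < α := by linarith
  have hβ0 : 0 < β := by linarith
  have hN0 : (0 : ℝ) < N := by linarith
  have hq1 : 0 ≤ 2 * K / ε := by positivity
  have hq2 : 0 ≤ α * W + W := by positivity
  have hq3 : 0 < β * N := by positivity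
  have hR1 : 1 ≤ R := by rw [hR]; linarith
  refine ⟨⌈R ^ 2⌉₊, fun n hn => ?_⟩
  have hnR : R ^ 2 ≤ n := (Nat.le_ceil _).trans (by exact_mod_cast hn)
  obtain ⟨x, hx⟩ : ∃ x, x = √(n : ℝ) := ⟨_, rfl⟩
  have hx2 : x ^ 2 = n := by rw [hx]; exact Real.sq_sqrt (Nat.cast_nonneg n)
  have hxR : R ≤ x := by rw [hx]; exact Real.le_sqrt_of_sq_le hnR
  have hx1 : 1 ≤ x := hR1.trans hxR
  have hx0 : 0 < x := by linarith
  obtain ⟨g, hg⟩ : ∃ g : ℕ, g = ⌈x * α / (β * N)⌉₊ := ⟨_, rfl⟩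
  have hs0 : 0 < x * α / (β * N) := by positivity
  have hg1 : x * α / (β * N) ≤ g := by rw [hg]; exact Nat.le_ceil _
  have hg2 : (g : ℝ) ≤ x * α / (β * N) + 1 := by rw [hg]; exact (Nat.ceil_lt_add_one hs0.le).le
  have hg3 : 2 ≤ g := by
    have h1 : 1 < x * α / (β * N) := by
      rw [one_lt_div hq3]
      have h2 : β * N < x := by rw [hR] at hxR; linarith
      exact h2.trans_le (le_mul_of_one_le_right hx0.le hα1)
    have h2 : (1 : ℝ) < g := h1.trans_le hg1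
    exact_mod_cast h2
  have hsx : x * α / (β * N) ≤ x * α := by
    rw [div_le_iff₀ hq3]
    have h1 : 1 ≤ β * N := one_le_mul_of_one_le_of_one_le hβ1 hN1
    have h2 : 0 ≤ x * α := by positivity
    exact le_mul_of_one_le_right h2 h1
  have hgW : g * W + 1 ≤ n := by
    have h1 : (g : ℝ) * W + 1 ≤ n := by
      have h2 : (g : ℝ) * W ≤ (x * α + 1) * W := by
        gcongr
        linarith
      have h3 : α * W + W + 1 ≤ x := by rw [hR] at hxR; linarith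
      have h4 : x * (α * W + W + 1) ≤ x * x := by gcongr
      have h5 : (W : ℝ) ≤ x * W := le_mul_of_one_le_left (Nat.cast_nonneg W) hx1
      have h6 : x * (α * W + W + 1) = x * α * W + x * W + x := by ring
      have h7 : (x * α + 1) * W = x * α * W + W := by ring
      rw [← hx2, sq]
      linarith
    exact_mod_cast h1
  obtain ⟨B, rep, C, hfar, hQ⟩ := copies k N g a hN hg3 (fun i h1 h2 => hnest i h1 (by rw [← hk]; exact h2))
  obtain ⟨G, hG1, hG2, hG3⟩ := chain_graph n k e (g * N) (fun h => g * c h) B rep hk1 he1 C hfar (by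
    rw [← mul_sum]
    have : g * W = g * N + g * ∑ h ∈ Icc 1 k, c h := by rw [hW]; ring
    omega)
  refine ⟨G, hG1, by rw [hG2, hd'], ?_⟩
  rw [hd'] at hG3
  refine hG3.trans ?_
  have e1 : ∑ h ∈ Icc 1 k, (h : ℝ) * ((g * c h : ℕ) : ℝ) = g * β ^ 2 / 2 := by
    rw [hβ2, hB]
    push_cast
    rw [mul_sum, sum_div]
    refine sum_congr rfl fun h _ => ?_
    ring
  have e2 : ∑ h ∈ Icc 1 k, (al d h : ℝ) *
      ∑ t ∈ range (g * c h), (((range (g * N)).filter fun y => B h y = t).card : ℝ) ^ 2 ≤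
      g * α ^ 2 := by
    rw [hα2, hA]
    push_cast
    rw [mul_sum]
    refine sum_le_sum fun h _ => ?_
    rw [mul_left_comm]
    refine mul_le_mul_of_nonneg_left ?_ (Nat.cast_nonneg _)
    exact_mod_cast hQ h
  have e3 : (0 : ℝ) ≤ ((n : ℝ) / ((g * N : ℕ) : ℝ) + 1 + k) ^ 2 := by positivity
  have e4 := mul_le_mul_of_nonneg_left e2 e3
  have hKx : K ≤ x * (ε / 2) := by
    have h1 : 2 * K / ε ≤ x := by rw [hR] at hxR; linarith
    rw [div_le_iff₀ hε] at h1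
    linarith
  have e5 := numD x α β N k g ε hx1 hα1 hβ1 hN1 (Nat.cast_nonneg k) hg1 hg2 (by rw [← hK]; exact hKx)
  rw [e1]
  have e6 : (2 * (α * β) / N + ε / 2) * (x ^ 2 * x) ≤ (cd d + ε) * (n * √n) := by
    rw [← hr', ← hx, ← hx2]
    have : r + ε / 2 ≤ cd d + ε := by
      have : r < cd d + ε / 2 := hrlt
      linarith
    gcongr
  refine le_trans ?_ (e5.trans e6)
  rw [hx2]
  push_cast at e4 ⊢
  linarith

end Pool.Agent.Lib.MP_b0a977_co.H62
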